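import Mathlib
import Pool.Agent.H968Z.Klein.Coc

set_option autoImplicit false

namespace Pool.Agent.H968Z.SC

open unitInterval Set Metric Topology Pool.Agent.H968Z.Klein

/-- A cell `Φ` attached to the closed set `A`. -/
structure IsCell {Z : Type} [TopologicalSpace Z] (A : Set Z) {n : ℕ}
    (Φ : PartialEquiv (Fin n → ℝ) Z) : Prop where
  closed : IsClosed A
  src : Φ.source = ball 0 1
  cont : ContinuousOn Φ (closedBall 0 1)
  contS : ContinuousOn Φ.symm Φ.target
  disj : Disjoint (Φ '' ball 0 1) A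
  bd : MapsTo Φ (sphere 0 1) A

/-- A closed shell. -/
def Sh (n : ℕ) (δ : ℝ) : Set (Fin n → ℝ) := {z | δ ≤ ‖z‖ ∧ ‖z‖ ≤ 1}

lemma isCompact_Sh (n : ℕ) (δ : ℝ) : IsCompact (Sh n δ) := by
  refine (isCompact_closedBall (0 : Fin n → ℝ) 1).of_isClosed_subset ?_ ?_
  · exact (isClosed_le continuous_const continuous_norm).inter
      (isClosed_le continuous_norm continuous_const)
  · intro z hz; exact mem_closedBall_zero_iff.2 hz.2

lemma Sh_sub (n : ℕ) (δ : ℝ) : Sh n δ ⊆ closedBall 0 1 := fun _ hz =>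
  mem_closedBall_zero_iff.2 hz.2

lemma rad_Sh {n : ℕ} {δ : ℝ} (hδ : 0 < δ) (t : I) {z : Fin n → ℝ} (hz : z ∈ Sh n δ) :
    rad t z ∈ Sh n δ := by
  have h0 := t.2.1
  have h1 := t.2.2
  have h2 := hz.1
  have h3 := hz.2
  constructor <;> rw [norm_rad t (by linarith)] <;> nlinarith

lemma continuousOn_rad' {n : ℕ} {δ : ℝ} (hδ : 0 < δ) :
    ContinuousOn (fun p : (Fin n → ℝ) × I => rad p.2 p.1) {p | δ ≤ ‖p.1‖} := by
  unfold rad
  have h1 : ContinuousOn (fun p : (Fin n → ℝ) × I => ‖p.1‖⁻¹) {p | δ ≤ ‖p.1‖} := by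
    refine ContinuousOn.inv₀ (continuous_fst.norm.continuousOn) ?_
    intro p hp h0
    simp only [mem_ofPred_eq] at hp
    linarith
  have h2 : Continuous (fun p : (Fin n → ℝ) × I => (p.2 : ℝ)) :=
    continuous_subtype_val.comp continuous_snd
  exact ((continuous_const.sub h2).continuousOn.add (h2.continuousOn.mul h1)).smul
    continuous_fst.continuousOn

namespace IsCell

variable {Z : Type} [TopologicalSpace Z] {A : Set Z} {n : ℕ} {Φ : PartialEquiv (Fin n → ℝ) Z}

lemma tgt (h : IsCell A Φ) : Φ.target = Φ '' ball 0 1 := by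
  rw [← h.src, Φ.image_source_eq_target]

lemma inv (h : IsCell A Φ) {z : Fin n → ℝ} (hz : ‖z‖ < 1) : Φ.symm (Φ z) = z :=
  Φ.left_inv (by rw [h.src]; exact mem_ball_zero_iff.2 hz)

lemma mem_tgt (h : IsCell A Φ) {z : Fin n → ℝ} (hz : ‖z‖ < 1) : Φ z ∈ Φ.target := by
  rw [h.tgt]; exact ⟨z, mem_ball_zero_iff.2 hz, rfl⟩

lemma not_mem (h : IsCell A Φ) {z : Fin n → ℝ} (hz : ‖z‖ < 1) : Φ z ∉ A :=
  Set.disjoint_left.1 h.disj ⟨z, mem_ball_zero_iff.2 hz, rfl⟩

lemma lt_of_not_mem (h : IsCell A Φ) {z : Fin n → ℝ} (hz : ‖z‖ ≤ 1) (hA : Φ z ∉ A) : ‖z‖ < 1 :=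
  hz.lt_of_ne fun e => hA (h.bd (mem_sphere_zero_iff_norm.2 e))

lemma closed_Sh [T2Space Z] (h : IsCell A Φ) (δ : ℝ) : IsClosed (Φ '' Sh n δ) :=
  ((isCompact_Sh n δ).image_of_continuousOn (h.cont.mono (Sh_sub n δ))).isClosed

lemma closed_ball [T2Space Z] (h : IsCell A Φ) {r : ℝ} (hr : r ≤ 1) :
    IsClosed (Φ '' closedBall 0 r) :=
  ((isCompact_closedBall _ _).image_of_continuousOn
    (h.cont.mono (closedBall_subset_closedBall hr))).isClosed

/-- The radial deformation of a collar onto `A`. -/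
theorem exists_rad [T2Space Z] (h : IsCell A Φ) {δ : ℝ} (hδ : 0 < δ) :
    ∃ R : Z × I → Z, ContinuousOn R ((A ∪ Φ '' Sh n δ) ×ˢ univ) ∧
      (∀ p ∈ A, ∀ t, R (p, t) = p) ∧ (∀ p ∈ A ∪ Φ '' Sh n δ, R (p, 0) = p) ∧
      (∀ p ∈ A ∪ Φ '' Sh n δ, R (p, 1) ∈ A) ∧
      ∀ p ∈ A ∪ Φ '' Sh n δ, ∀ t, R (p, t) ∈ A ∪ Φ '' Sh n δ := by
  classical
  let R : Z × I → Z := fun p => if p.1 ∈ Φ.target then Φ (rad p.2 (Φ.symm p.1)) else p.1
  have hRA : ∀ p ∈ A, ∀ t, R (p, t) = p := by
    intro p hp t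
    have : p ∉ Φ.target := by
      rw [h.tgt]; exact fun h' => Set.disjoint_left.1 h.disj h' hp
    simp [R, this]
  have hRS : ∀ z ∈ Sh n δ, ∀ t, R (Φ z, t) = Φ (rad t z) := by
    intro z hz t
    rcases hz.2.lt_or_eq with h' | h'
    · simp only [R, h.mem_tgt h', if_true, h.inv h']
    · rw [hRA _ (h.bd (mem_sphere_zero_iff_norm.2 h')), rad_sphere t h']
  have hcSh : ContinuousOn Φ (Sh n δ) := h.cont.mono (Sh_sub n δ)
  refine ⟨R, ?_, hRA, ?_, ?_, ?_⟩
  · have h1 : ContinuousOn R (A ×ˢ univ) :=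
      continuous_fst.continuousOn.congr fun p hp => hRA p.1 hp.1 p.2
    have h2 : ContinuousOn R ((Φ '' Sh n δ) ×ˢ univ) := by
      have h3 : (Φ '' Sh n δ) ×ˢ (univ : Set I) =
          (fun p : (Fin n → ℝ) × I => (Φ p.1, p.2)) '' (Sh n δ ×ˢ univ) := by
        ext ⟨p, t⟩
        constructor
        · rintro ⟨⟨z, hz, rfl⟩, -⟩
          exact ⟨(z, t), ⟨hz, mem_univ _⟩, rfl⟩
        · rintro ⟨⟨z, t'⟩, ⟨hz, -⟩, h⟩
          simp only [Prod.mk.injEq] at h
          exact ⟨⟨z, hz, h.1⟩, mem_univ _⟩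
      rw [h3]
      refine continuousOn_of_comp ((isCompact_Sh n δ).prod isCompact_univ) ?_ ?_
      · exact (hcSh.comp continuous_fst.continuousOn fun p hp => hp.1).prodMk
          continuous_snd.continuousOn
      · refine ContinuousOn.congr (f := fun p : (Fin n → ℝ) × I => Φ (rad p.2 p.1)) ?_ ?_
        · refine h.cont.comp ((continuousOn_rad' hδ).mono fun p hp => hp.1.1) ?_
          intro p hp
          exact Sh_sub n δ (rad_Sh hδ _ hp.1)
        · intro p hp
          exact hRS p.1 hp.1 p.2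
    rw [union_prod]
    exact h1.union_of_isClosed h2 (h.closed.prod isClosed_univ)
      ((h.closed_Sh δ).prod isClosed_univ)
  · rintro p (hp | ⟨z, hz, rfl⟩)
    · exact hRA p hp 0
    · rw [hRS z hz, rad_zero]
  · rintro p (hp | ⟨z, hz, rfl⟩)
    · rw [hRA p hp]; exact hp
    · rw [hRS z hz]
      refine h.bd (mem_sphere_zero_iff_norm.2 ?_)
      rw [norm_rad 1 (by linarith [hz.1])]; simp
  · rintro p (hp | ⟨z, hz, rfl⟩) t
    · rw [hRA p hp]; exact Or.inl hp
    · rw [hRS z hz]; exact Or.inr ⟨_, rad_Sh hδ t hz, rfl⟩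

end IsCell

section CW

variable {X : Type} [TopologicalSpace X] [T2Space X] [CWComplex (univ : Set X)]

/-- The union of the cells of dimension less than `k`. -/
def sk (X : Type) [TopologicalSpace X] [T2Space X] [CWComplex (univ : Set X)] (k : ℕ) : Set X :=
  (RelCWComplex.skeletonLT (univ : Set X) (k : ℕ∞) : Set X)

lemma sk_mono {k l : ℕ} (h : k ≤ l) : sk X k ⊆ sk X l :=
  RelCWComplex.skeletonLT_mono (by exact_mod_cast h)

lemma mem_sk {k : ℕ} {x : X} : x ∈ sk X k ↔
    ∃ m < k, ∃ j : RelCWComplex.cell (univ : Set X) m, x ∈ RelCWComplex.openCell m j := by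
  unfold sk
  rw [SetLike.mem_coe, CWComplex.mem_skeletonLT_iff]
  simp only [Nat.cast_lt, exists_prop]

lemma sk_zero : sk X 0 = ∅ := by
  ext x; simp [mem_sk]

/-- The `k`-skeleton with finitely many `k`-cells. -/
def skF (k : ℕ) (F : Finset (RelCWComplex.cell (univ : Set X) k)) : Set X :=
  sk X k ∪ ⋃ e ∈ F, RelCWComplex.closedCell k e

lemma skF_empty (k : ℕ) : skF (X := X) k ∅ = sk X k := by simp [skF]

open Classical in
lemma skF_insert (k : ℕ) (F : Finset (RelCWComplex.cell (univ : Set X) k))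
    (e : RelCWComplex.cell (univ : Set X) k) :
    skF k (insert e F) = skF k F ∪ RelCWComplex.map k e '' closedBall 0 1 := by
  unfold skF
  rw [Finset.set_biUnion_insert, union_assoc, union_comm (⋃ e ∈ F, _)]
  rfl

lemma isCell_skF (k : ℕ) (F : Finset (RelCWComplex.cell (univ : Set X) k))
    (e : RelCWComplex.cell (univ : Set X) k) (he : e ∉ F) :
    IsCell (skF k F) (RelCWComplex.map k e) where
  closed := (RelCWComplex.skeletonLT (univ : Set X) (k : ℕ∞)).closed.union
    (isClosed_biUnion_finset fun _ _ => RelCWComplex.isClosed_closedCell)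
  src := RelCWComplex.source_eq k e
  cont := RelCWComplex.continuousOn k e
  contS := RelCWComplex.continuousOn_symm k e
  disj := by
    rw [Set.disjoint_left]
    rintro x hx (h | h)
    · exact Set.disjoint_left.1
        (RelCWComplex.disjoint_skeletonLT_openCell (j := e) le_rfl) h hx
    · simp only [mem_iUnion] at h
      obtain ⟨e', he', h⟩ := h
      rw [← RelCWComplex.cellFrontier_union_openCell_eq_closedCell] at h
      rcases h with h | h
      · exact Set.disjoint_left.1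
          (RelCWComplex.disjoint_skeletonLT_openCell (j := e) le_rfl)
          (RelCWComplex.cellFrontier_subset_skeletonLT k e' h) hx
      · have hne : (⟨k, e⟩ : Σ n, RelCWComplex.cell (univ : Set X) n) ≠ ⟨k, e'⟩ := by
          intro h'
          have : e = e' := eq_of_heq (Sigma.mk.inj h').2
          exact he (this ▸ he')
        exact Set.disjoint_left.1 (RelCWComplex.disjoint_openCell_of_ne hne) hx h
  bd := fun z hz => Or.inl (RelCWComplex.cellFrontier_subset_skeletonLT k e ⟨z, hz, rfl⟩)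

lemma exists_openCell (x : X) : ∃ c : Σ n, RelCWComplex.cell (univ : Set X) n,
    x ∈ RelCWComplex.openCell c.1 c.2 := by
  have hx : x ∈ ⋃ (n : ℕ) (j : RelCWComplex.cell (univ : Set X) n),
      RelCWComplex.openCell n j := by
    rw [CWComplex.iUnion_openCell_eq_complex]; exact mem_univ _
  simp only [mem_iUnion] at hx
  obtain ⟨n, j, hj⟩ := hx
  exact ⟨⟨n, j⟩, hj⟩

/-- A compact set meets finitely many open cells. -/
theorem finite_cells {K : Set X} (hK : IsCompact K) :
    {c : Σ n, RelCWComplex.cell (univ : Set X) n |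
      (K ∩ RelCWComplex.openCell c.1 c.2).Nonempty}.Finite := by
  classical
  set T := {c : Σ n, RelCWComplex.cell (univ : Set X) n |
      (K ∩ RelCWComplex.openCell c.1 c.2).Nonempty} with hT
  choose p hp using (fun e : T => e.2)
  have huniq : ∀ (e : T) (c : Σ n, RelCWComplex.cell (univ : Set X) n),
      p e ∈ RelCWComplex.openCell c.1 c.2 → e.1 = c := by
    intro e c hc
    by_contra hne
    exact Set.disjoint_left.1 (RelCWComplex.disjoint_openCell_of_ne (n := e.1.1) (m := c.1)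
      (i := e.1.2) (j := c.2) hne) (hp e).2 hc
  have hpinj : Function.Injective p := fun e e' h =>
    Subtype.ext (huniq e e'.1 (h ▸ (hp e').2))
  have hone : ∀ c : Σ n, RelCWComplex.cell (univ : Set X) n,
      (range p ∩ RelCWComplex.openCell c.1 c.2).Finite := by
    intro c
    refine Set.Subsingleton.finite ?_
    rintro _ ⟨⟨e, rfl⟩, h1⟩ _ ⟨⟨e', rfl⟩, h2⟩
    rw [Subtype.ext ((huniq e c h1).trans (huniq e' c h2).symm)]
  have hclosed : ∀ B ⊆ range p, IsClosed B := by
    intro B hB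
    rw [CWComplex.closed univ B (subset_univ _)]
    intro n j
    refine Set.Finite.isClosed ?_
    obtain ⟨J, hJ⟩ := CWComplex.cellFrontier_subset_finite_openCell (C := (univ : Set X)) n j
    have hfin : (⋃ m ∈ Iio n, ⋃ i ∈ (J m : Set _),
        range p ∩ RelCWComplex.openCell (C := (univ : Set X)) m i).Finite :=
      (finite_Iio n).biUnion fun m _ => (J m).finite_toSet.biUnion fun i _ => hone ⟨m, i⟩
    refine (hfin.union (hone ⟨n, j⟩)).subset ?_
    rintro x ⟨hx, hx2⟩
    have hx2' : x ∈ RelCWComplex.closedCell n j := hx2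
    rw [← RelCWComplex.cellFrontier_union_openCell_eq_closedCell] at hx2'
    rcases hx2' with h | h
    · have := hJ h
      simp only [mem_iUnion] at this
      obtain ⟨m, hm, i, hi, hxi⟩ := this
      left
      simp only [mem_iUnion]
      exact ⟨m, hm, i, hi, hB hx, hxi⟩
    · exact Or.inr ⟨hB hx, h⟩
  have hcomp : IsCompact (range p) :=
    hK.of_isClosed_subset (hclosed _ subset_rfl) (by rintro _ ⟨e, rfl⟩; exact (hp e).1)
  have hdisc : IsDiscrete (range p) := by
    rw [isDiscrete_iff_forall_mem_exists_isOpen]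
    intro y hy
    refine ⟨(range p \ {y})ᶜ, (hclosed _ sdiff_subset).isOpen_compl, ?_⟩
    ext x
    simp only [mem_inter_iff, mem_compl_iff, mem_sdiff, mem_singleton_iff, not_and, not_not]
    constructor
    · rintro ⟨h1, h2⟩; exact h1 h2
    · rintro rfl; exact ⟨fun _ => rfl, hy⟩
  have hfin : (range p).Finite := hcomp.finite hdisc
  have : Finite T := by
    have := hfin.to_subtype
    exact Finite.of_injective (fun e : T => (⟨p e, e, rfl⟩ : range p))
      fun e e' h => hpinj (congrArg Subtype.val h)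
  exact Set.toFinite T

lemma exists_sk {K : Set X} (hK : IsCompact K) : ∃ m, K ⊆ sk X m := by
  obtain ⟨m, hm⟩ := ((finite_cells hK).image Sigma.fst).bddAbove
  refine ⟨m + 1, fun x hx => ?_⟩
  obtain ⟨c, hc⟩ := exists_openCell x
  exact mem_sk.2 ⟨c.1, Nat.lt_succ_of_le (hm ⟨c, ⟨x, hx, hc⟩, rfl⟩), c.2, hc⟩

lemma exists_skF {K : Set X} (hK : IsCompact K) {m : ℕ} (h : K ⊆ sk X (m + 1)) :
    ∃ F, K ⊆ skF m F := by
  have hfin : {e : RelCWComplex.cell (univ : Set X) m |
      (K ∩ RelCWComplex.openCell m e).Nonempty}.Finite :=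
    (finite_cells hK).preimage (f := fun e => (⟨m, e⟩ : Σ n, RelCWComplex.cell (univ : Set X) n))
      (sigma_mk_injective.injOn)
  refine ⟨hfin.toFinset, fun x hx => ?_⟩
  obtain ⟨l, hl, j, hj⟩ := mem_sk.1 (h hx)
  rcases (Nat.lt_succ_iff.1 hl).lt_or_eq with h1 | rfl
  · exact Or.inl (mem_sk.2 ⟨l, h1, j, hj⟩)
  · right
    simp only [mem_iUnion]
    exact ⟨j, hfin.mem_toFinset.2 ⟨x, hx, hj⟩, RelCWComplex.openCell_subset_closedCell _ _ hj⟩

/-- The skeleta of a complex of finite type are compact. -/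
theorem isCompact_sk [h : RelCWComplex.FiniteType (univ : Set X)] (k : ℕ) :
    IsCompact (sk X k) := by
  have h1 : IsCompact (⋃ m ∈ Iio k, ⋃ j : RelCWComplex.cell (univ : Set X) m,
      RelCWComplex.closedCell m j) :=
    (finite_Iio k).isCompact_biUnion fun m _ => by
      have := h.finite_cell m
      exact isCompact_iUnion fun j => RelCWComplex.isCompact_closedCell
  refine h1.of_isClosed_subset (RelCWComplex.skeletonLT (univ : Set X) (k : ℕ∞)).closed ?_
  intro x hx
  obtain ⟨m, hm, j, hj⟩ := mem_sk.1 hx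
  simp only [mem_iUnion]
  exact ⟨m, hm, j, RelCWComplex.openCell_subset_closedCell _ _ hj⟩

end CW

end Pool.Agent.H968Z.SC
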