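import Mathlib
import Pool.Agent.H968Z.SC.Rad

set_option autoImplicit false

namespace Pool.Agent.H968Z.SC

open unitInterval Set Metric Topology Pool.Agent.H968Z.Klein
open scoped NNReal ENNReal

/-- Lipschitz approximation on a compact metric space. -/
lemma exists_lip_real {D : Type} [MetricSpace D] [CompactSpace D] (G : C(D, ℝ)) {ε : ℝ}
    (hε : 0 < ε) : ∃ (G' : D → ℝ) (L : ℝ≥0), LipschitzWith L G' ∧ ∀ x, |G' x - G x| ≤ ε := by
  rcases isEmpty_or_nonempty D with hD | hD
  · exact ⟨fun _ => 0, 0, LipschitzWith.const' _, fun x => isEmptyElim x⟩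
  obtain ⟨η, hη, hu⟩ := Metric.uniformContinuous_iff.1
    (CompactSpace.uniformContinuous_of_continuous G.continuous) ε hε
  let L : ℝ := 2 * ‖G‖ / η
  have hL : 0 ≤ L := by positivity
  have key : ∀ x y, G x - ε ≤ G y + L * dist x y := by
    intro x y
    by_cases h : dist x y < η
    · have := hu h
      rw [Real.dist_eq, abs_lt] at this
      nlinarith [dist_nonneg (x := x) (y := y)]
    · have h1 := abs_le.1 (G.norm_coe_le_norm x)
      have h2 := abs_le.1 (G.norm_coe_le_norm y)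
      have h3 : L * η ≤ L * dist x y := mul_le_mul_of_nonneg_left (not_lt.1 h) hL
      have h4 : L * η = 2 * ‖G‖ := by simp only [L]; field_simp
      linarith [h1.2, h2.1]
  have hb : ∀ x, BddBelow (range fun y => G y + L * dist x y) := fun x =>
    ⟨G x - ε, by rintro _ ⟨y, rfl⟩; exact key x y⟩
  refine ⟨fun x => ⨅ y, (G y + L * dist x y), ⟨L, hL⟩, ?_, fun x => ?_⟩
  · refine LipschitzWith.of_le_add_mul _ fun x x' => ?_
    rw [← sub_le_iff_le_add]
    refine le_ciInf fun y => ?_
    have h1 := ciInf_le (hb x) y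
    have h2 : L * dist x y ≤ L * (dist x x' + dist x' y) :=
      mul_le_mul_of_nonneg_left (dist_triangle _ _ _) hL
    show _ - L * dist x x' ≤ _
    linarith
  · have h1 := ciInf_le (hb x) x
    have h2 : G x - ε ≤ ⨅ y, (G y + L * dist x y) := le_ciInf (key x)
    simp only [dist_self, mul_zero, add_zero] at h1
    rw [abs_le]; constructor <;> linarith

/-- A map to a space of larger dimension is close to a continuous map that misses the origin. -/
lemma exists_miss {D : Type} [MetricSpace D] [CompactSpace D] {m : ℕ}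
    (hD : dimH (univ : Set D) < m) (G : C(D, Fin m → ℝ)) :
    ∃ G' : C(D, Fin m → ℝ), (∀ x, G' x ≠ 0) ∧ ∀ x, ‖G' x - G x‖ < 1 / 4 := by
  choose g L hL hg using fun i : Fin m =>
    exists_lip_real (ContinuousMap.mk (fun x => G x i) (by fun_prop)) (ε := 1 / 8) (by norm_num)
  have hlip : LipschitzWith (Finset.univ.sup L) (fun x i => g i x) :=
    fun x y => by
      rw [edist_pi_le_iff]
      intro i
      refine (hL i x y).trans ?_
      gcongr
      exact Finset.le_sup (f := L) (Finset.mem_univ i)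
  have hd : Dense (range fun x i => g i x)ᶜ :=
    dense_compl_of_dimH_lt_finrank (hlip.dimH_range_le.trans_lt (by simpa using hD))
  obtain ⟨y, hy1, hy2⟩ := hd.inter_open_nonempty (ball 0 (1 / 8)) isOpen_ball
    (nonempty_ball.2 (by norm_num))
  refine ⟨⟨fun x => (fun i => g i x) - y, hlip.continuous.sub continuous_const⟩, fun x h => ?_,
    fun x => ?_⟩
  · exact hy2 ⟨x, sub_eq_zero.1 h⟩
  · have h1 : ‖(fun i => g i x) - G x‖ ≤ 1 / 8 :=
      (pi_norm_le_iff_of_nonneg (by norm_num)).2 fun i => hg i x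
    have h2 := mem_ball_zero_iff.1 hy1
    have h3 : (fun i => g i x) - y - G x = ((fun i => g i x) - G x) - y := by abel
    simp only [ContinuousMap.coe_mk]
    rw [h3]
    linarith [norm_sub_le ((fun i => g i x) - G x) y]

lemma homotopicRel_mono {D X : Type} [TopologicalSpace D] [TopologicalSpace X] {f g : C(D, X)}
    {S T : Set D} (h : f.HomotopicRel g S) (hT : T ⊆ S) : f.HomotopicRel g T := by
  obtain ⟨H⟩ := h
  exact ⟨⟨H.toHomotopy, fun t x hx => H.eq_fst t (hT hx)⟩⟩

lemma homotopicRel_of {D X : Type} [TopologicalSpace D] [TopologicalSpace X] {f : C(D, X)}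
    {S : Set D} (H : I × D → X) (hH : Continuous H) (h0 : ∀ d, H (0, d) = f d)
    (hS : ∀ t, ∀ d ∈ S, H (t, d) = f d) :
    f.HomotopicRel ⟨fun d => H (1, d), by fun_prop⟩ S :=
  ⟨⟨⟨⟨H, hH⟩, h0, fun _ => rfl⟩, fun t x hx => hS t x hx⟩⟩

/-- Pushing a map off a cell of large dimension. -/
theorem push_cell {X : Type} [TopologicalSpace X] [T2Space X] {A : Set X} {m : ℕ}
    {Φ : PartialEquiv (Fin m → ℝ) X} (h : IsCell A Φ) {D : Type} [MetricSpace D] [CompactSpace D]
    (hD : dimH (univ : Set D) < m) (f : C(D, X)) (hf : ∀ d, f d ∈ A ∪ Φ '' closedBall 0 1) :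
    ∃ g : C(D, X), (∀ d, g d ∈ A) ∧ f.HomotopicRel g (f ⁻¹' A) := by
  classical
  let K : Set D := f ⁻¹' (Φ '' closedBall 0 (3 / 4))
  let O : Set D := f ⁻¹' (A ∪ Φ '' Sh m (1 / 2))
  have hK : IsClosed K := (h.closed_ball (by norm_num)).preimage f.continuous
  have hO : IsClosed O := (h.closed.union (h.closed_Sh _)).preimage f.continuous
  have hKO : ∀ d, d ∉ K → d ∈ O := by
    intro d hd
    rcases hf d with h1 | ⟨z, hz, h1⟩
    · exact Or.inl h1
    · refine Or.inr ⟨z, ⟨?_, mem_closedBall_zero_iff.1 hz⟩, h1⟩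
      by_contra h2
      exact hd ⟨z, mem_closedBall_zero_iff.2 (by linarith), h1⟩
  have hKs : ∀ d ∈ K, ‖Φ.symm (f d)‖ ≤ 3 / 4 ∧ Φ (Φ.symm (f d)) = f d ∧ f d ∈ Φ.target := by
    rintro d ⟨z, hz, h1⟩
    have hz' := mem_closedBall_zero_iff.1 hz
    rw [← h1, h.inv (by linarith)]
    exact ⟨hz', rfl, h.mem_tgt (by linarith)⟩
  have hgc : ContinuousOn (fun d => Φ.symm (f d)) K :=
    h.contS.comp f.continuous.continuousOn fun d hd => (hKs d hd).2.2
  obtain ⟨G, hG⟩ := ContinuousMap.exists_restrict_eq hK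
    (⟨K.domRestrict fun d => Φ.symm (f d), hgc.domRestrict⟩ : C(K, Fin m → ℝ))
  have hG' : ∀ d ∈ K, G d = Φ.symm (f d) := fun d hd =>
    congrArg (fun u : C(K, Fin m → ℝ) => u ⟨d, hd⟩) hG
  obtain ⟨G', hG0, hG1⟩ := exists_miss hD G
  let β : D → ℝ := fun d => max 0 (min 1 (2 - 4 * ‖G d‖))
  have hβc : Continuous β := by fun_prop
  have hβ0 : ∀ d, 0 ≤ β d := fun d => le_max_left _ _
  have hβ1 : ∀ d, β d ≤ 1 := fun d => max_le zero_le_one (min_le_left _ _)
  let w : I × D → (Fin m → ℝ) := fun p => G p.2 + ((p.1 : ℝ) * β p.2) • (G' p.2 - G p.2)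
  have hwc : Continuous w := by fun_prop
  have hwd : ∀ p, ‖w p - G p.2‖ < 1 / 4 := by
    intro p
    have h1 : w p - G p.2 = ((p.1 : ℝ) * β p.2) • (G' p.2 - G p.2) := by simp [w]
    have h2 : 0 ≤ (p.1 : ℝ) * β p.2 := mul_nonneg p.1.2.1 (hβ0 _)
    have h3 : (p.1 : ℝ) * β p.2 ≤ 1 := mul_le_one₀ p.1.2.2 (hβ0 _) (hβ1 _)
    rw [h1, norm_smul, Real.norm_of_nonneg h2]
    nlinarith [hG1 p.2, norm_nonneg (G' p.2 - G p.2)]
  have hwK : ∀ t, ∀ d ∈ K, ‖w (t, d)‖ < 1 := by
    intro t d hd
    have h1 := hwd (t, d)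
    have h2 := (hKs d hd).1
    rw [← hG' d hd] at h2
    have := norm_le_norm_add_norm_sub' (w (t, d)) (G d)
    linarith
  have hwO : ∀ t, ∀ d ∈ K, d ∈ O → Φ (w (t, d)) = f d := by
    intro t d hd hd'
    have h1 : 1 / 2 ≤ ‖G d‖ := by
      rw [hG' d hd]
      rcases hd' with h2 | ⟨z, hz, h2⟩
      · rw [← (hKs d hd).2.1] at h2
        exact absurd h2 (h.not_mem (by linarith [(hKs d hd).1]))
      · have h3 : Φ z ∉ A := by
          rw [h2, ← (hKs d hd).2.1]
          exact h.not_mem (by linarith [(hKs d hd).1])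
        rw [← h2, h.inv (h.lt_of_not_mem hz.2 h3)]
        exact hz.1
    have h2 : β d = 0 := max_eq_left (min_le_of_right_le (by linarith))
    simp only [w, h2, mul_zero, zero_smul, add_zero, hG' d hd, (hKs d hd).2.1]
  have hw0 : ∀ d, w (1, d) ≠ 0 := by
    intro d
    by_cases h1 : ‖G d‖ ≤ 1 / 4
    · have h2 : β d = 1 := by
        simp only [β]
        rw [min_eq_left (by linarith), max_eq_right zero_le_one]
      simpa [w, h2] using hG0 d
    · intro h0
      have := hwd (1, d)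
      rw [h0, zero_sub, norm_neg] at this
      linarith
  let H : I × D → X := fun p => if p.2 ∈ K then Φ (w p) else f p.2
  have hHO : ∀ t, ∀ d ∈ O, H (t, d) = f d := by
    intro t d hd
    by_cases h1 : d ∈ K
    · simp only [H, h1, if_true, hwO t d h1 hd]
    · simp only [H, h1, if_false]
  have hHc : Continuous H := by
    have h1 : ContinuousOn H (univ ×ˢ K) := by
      refine ContinuousOn.congr (f := fun p => Φ (w p)) ?_ fun p hp => by simp only [H, hp.2, if_true]
      exact h.cont.comp hwc.continuousOn fun p hp => mem_closedBall_zero_iff.2 (hwK p.1 p.2 hp.2).le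
    have h2 : ContinuousOn H (univ ×ˢ O) :=
      (f.continuous.comp continuous_snd).continuousOn.congr fun p hp => hHO p.1 p.2 hp.2
    have h3 := h1.union_of_isClosed h2 (isClosed_univ.prod hK) (isClosed_univ.prod hO)
    rw [← continuousOn_univ]
    refine h3.mono fun p _ => ?_
    by_cases h4 : p.2 ∈ K
    · exact Or.inl ⟨mem_univ _, h4⟩
    · exact Or.inr ⟨mem_univ _, hKO _ h4⟩
  have s1 := homotopicRel_of (f := f) (S := f ⁻¹' A) H hHc (fun d => by
    by_cases h1 : d ∈ K
    · simp [H, h1, w, hG' d h1, (hKs d h1).2.1]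
    · simp only [H, h1, if_false]) fun t d hd => hHO t d (Or.inl hd)
  obtain ⟨δ, hδ, hδ1, hδ2⟩ : ∃ δ : ℝ, 0 < δ ∧ δ ≤ 1 / 2 ∧ ∀ d, δ ≤ ‖w (1, d)‖ := by
    rcases isEmpty_or_nonempty D with hD' | hD'
    · exact ⟨1 / 2, by norm_num, le_rfl, fun d => isEmptyElim d⟩
    · obtain ⟨d0, -, hd0⟩ := isCompact_univ.exists_isMinOn univ_nonempty
        (f := fun d => ‖w (1, d)‖) (by fun_prop)
      exact ⟨min ‖w (1, d0)‖ (1 / 2), lt_min (norm_pos_iff.2 (hw0 d0)) (by norm_num),
        min_le_right _ _, fun d => (min_le_left _ _).trans (hd0 (mem_univ d))⟩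
  have hH1 : ∀ d, H (1, d) ∈ A ∪ Φ '' Sh m δ := by
    intro d
    by_cases h1 : d ∈ K
    · simp only [H, h1, if_true]
      exact Or.inr ⟨_, ⟨hδ2 d, (hwK 1 d h1).le⟩, rfl⟩
    · rw [hHO 1 d (hKO d h1)]
      rcases hKO d h1 with h2 | ⟨z, hz, h2⟩
      · exact Or.inl h2
      · exact Or.inr ⟨z, ⟨hδ1.trans hz.1, hz.2⟩, h2⟩
  obtain ⟨R, hRc, hRA, hR0, hR1, -⟩ := h.exists_rad hδ
  have hc2 : Continuous fun p : I × D => R (H (1, p.2), p.1) :=
    hRc.comp_continuous (by fun_prop) fun p => ⟨hH1 _, mem_univ _⟩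
  have s2 := homotopicRel_of (f := ⟨fun d => H (1, d), by fun_prop⟩) (S := f ⁻¹' A) _ hc2
    (fun d => hR0 _ (hH1 d)) fun t d hd => hRA _ (by rw [hHO 1 d (Or.inl hd)]; exact hd) t
  exact ⟨_, fun d => hR1 _ (hH1 d), s1.trans s2⟩

/-- Cellular approximation for maps from a compact metric space of Hausdorff dimension less than
`k`: such a map is homotopic, relative to the preimage of the union `sk X k` of the cells of
dimension less than `k`, to a map into that union. -/
theorem push_skel {X : Type} [TopologicalSpace X] [T2Space X] [CWComplex (univ : Set X)]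
    {D : Type} [MetricSpace D] [CompactSpace D] {k : ℕ} (hD : dimH (univ : Set D) < k)
    (f : C(D, X)) : ∃ g : C(D, X), (∀ d, g d ∈ sk X k) ∧ f.HomotopicRel g (f ⁻¹' sk X k) := by
  classical
  have main : ∀ m, ∀ f : C(D, X), (∀ d, f d ∈ sk X (k + m)) →
      ∃ g : C(D, X), (∀ d, g d ∈ sk X k) ∧ f.HomotopicRel g (f ⁻¹' sk X k) := by
    intro m
    induction m with
    | zero => exact fun f hf => ⟨f, hf, ContinuousMap.HomotopicRel.refl f⟩
    | succ m ih =>
      have inner : ∀ F : Finset (RelCWComplex.cell (univ : Set X) (k + m)), ∀ f : C(D, X),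
          (∀ d, f d ∈ skF (k + m) F) →
          ∃ g : C(D, X), (∀ d, g d ∈ sk X k) ∧ f.HomotopicRel g (f ⁻¹' sk X k) := by
        intro F
        induction F using Finset.induction_on with
        | empty => simpa only [skF_empty] using ih
        | insert e F he ihF =>
          intro f hf
          rw [skF_insert] at hf
          obtain ⟨g, hg, hfg⟩ := push_cell (isCell_skF _ F e he)
            (hD.trans_le (by exact_mod_cast Nat.le_add_right k m)) f hf
          obtain ⟨g', hg', hgg⟩ := ihF g hg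
          have hsub : f ⁻¹' sk X k ⊆ f ⁻¹' skF (k + m) F := fun d hd =>
            Or.inl (sk_mono (Nat.le_add_right k m) hd)
          refine ⟨g', hg', (homotopicRel_mono hfg hsub).trans (homotopicRel_mono hgg ?_)⟩
          intro d hd
          rw [mem_preimage, ← hfg.fst_eq_snd (hsub hd)]
          exact hd
      intro f hf
      obtain ⟨F, hF⟩ := exists_skF (isCompact_range f.continuous) (m := k + m)
        (by rintro _ ⟨d, rfl⟩; exact hf d)
      exact inner F f fun d => hF ⟨d, rfl⟩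
  obtain ⟨m, hm⟩ := exists_sk (isCompact_range f.continuous)
  exact main m f fun d => sk_mono (Nat.le_add_left m k) (hm ⟨d, rfl⟩)

lemma dimH_I : dimH (univ : Set I) ≤ 1 := by
  have h := (isometry_subtype_coe (s := I)).dimH_image (univ : Set I)
  rw [← h, ← Real.dimH_univ]
  exact dimH_mono (subset_univ _)

/-- A path with end points in the `1`-skeleton is homotopic to a path in the `1`-skeleton. -/
theorem path_skel {X : Type} [TopologicalSpace X] [T2Space X] [CWComplex (univ : Set X)]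
    {x y : X} (hx : x ∈ sk X 2) (hy : y ∈ sk X 2) (γ : Path x y) :
    ∃ γ' : Path x y, (∀ t, γ' t ∈ sk X 2) ∧ γ.Homotopic γ' := by
  obtain ⟨g, hg, hfg⟩ := push_skel (k := 2) (dimH_I.trans_lt (by norm_num)) γ.toContinuousMap
  have h2 : γ.toContinuousMap.HomotopicRel g {0, 1} := by
    refine homotopicRel_mono hfg ?_
    rintro t (rfl | rfl)
    · simpa using hx
    · simpa using hy
  refine ⟨⟨g, ?_, ?_⟩, hg, h2⟩
  · exact (h2.fst_eq_snd (Or.inl rfl)).symm.trans γ.source
  · exact (h2.fst_eq_snd (Or.inr rfl)).symm.trans γ.target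

lemma dimH_cube (n : ℕ) : dimH (univ : Set (Fin n → I)) ≤ n := by
  have h : Isometry (fun (u : Fin n → I) (i : Fin n) => (u i : ℝ)) :=
    Isometry.piMap _ fun _ => isometry_subtype_coe
  rw [← h.dimH_image univ, ← Real.dimH_univ_pi_fin n]
  exact dimH_mono (subset_univ _)

lemma dimH_torus : dimH (univ : Set (AddCircle (1 : ℝ) × AddCircle (1 : ℝ))) ≤ 2 := by
  have h0 : LipschitzWith 1 (fun x : ℝ => (x : AddCircle (1 : ℝ))) :=
    LipschitzWith.of_dist_le_mul fun x y => by
      rw [dist_eq_norm, dist_eq_norm, ← AddCircle.coe_sub]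
      rw [NNReal.coe_one, one_mul]
      exact QuotientAddGroup.norm_mk_le_norm
  have h : LipschitzWith 1 (fun u : Fin 2 → ℝ =>
      (((u 0 : ℝ) : AddCircle (1 : ℝ)), ((u 1 : ℝ) : AddCircle (1 : ℝ)))) := by
    have h1 := (h0.comp (LipschitzWith.eval (α := fun _ : Fin 2 => ℝ) 0)).prodMk
      (h0.comp (LipschitzWith.eval (α := fun _ : Fin 2 => ℝ) 1))
    simpa using h1
  have h2 := h.dimH_range_le
  rw [Real.dimH_univ_pi_fin, range_eq_univ.2] at h2
  · exact_mod_cast h2
  · rintro ⟨a, b⟩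
    obtain ⟨x, rfl⟩ := QuotientAddGroup.mk_surjective a
    obtain ⟨y, rfl⟩ := QuotientAddGroup.mk_surjective b
    exact ⟨![x, y], rfl⟩

end Pool.Agent.H968Z.SC
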