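import Mathlib
import Pool.Agent.H968Z.SC.Rad

set_option autoImplicit false

namespace Pool.Agent.H968Z.SC

open unitInterval Set Metric Topology Pool.Agent.H968Z.Klein

/-- Clamping a real number to the unit interval. -/
noncomputable def cl (x : ℝ) : I := projIcc 0 1 zero_le_one x

@[fun_prop] lemma continuous_cl : Continuous cl := continuous_projIcc (h := zero_le_one)

lemma cl_of_le {x : ℝ} (h : x ≤ 0) : cl x = 0 := projIcc_of_le_left _ h
lemma cl_of_ge {x : ℝ} (h : 1 ≤ x) : cl x = 1 := projIcc_of_right_le _ h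
@[simp] lemma cl_coe (t : I) : cl t = t := projIcc_val _ t
@[simp] lemma cl_zero : cl 0 = 0 := cl_of_le le_rfl
@[simp] lemma cl_one : cl 1 = 1 := cl_of_ge le_rfl

/-- Local contractibility of a subset. -/
def LC {Z : Type} [TopologicalSpace Z] (A : Set Z) : Prop :=
  ∀ x ∈ A, ∀ W : Set Z, IsOpen W → x ∈ W → ∃ V : Set Z, IsOpen V ∧ x ∈ V ∧
    ∃ H : Z × I → Z, ContinuousOn H ((A ∩ V) ×ˢ univ) ∧
      ∀ v ∈ A ∩ V, H (v, 0) = v ∧ H (v, 1) = x ∧ ∀ t, H (v, t) ∈ A ∩ W

theorem LC.attach {Z : Type} [TopologicalSpace Z] [T2Space Z] {A : Set Z} (hA : LC A) {n : ℕ}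
    {Φ : PartialEquiv (Fin n → ℝ) Z} (h : IsCell A Φ) : LC (A ∪ Φ '' closedBall 0 1) := by
  intro x hx W hW hxW
  by_cases hxA : x ∈ A
  · obtain ⟨U, hU, hxU, H0, hH0c, hH0⟩ := hA x hxA W hW hxW
    obtain ⟨R, hRc, hRA, hR0, hR1, hRN⟩ := h.exists_rad (δ := 1 / 2) (by norm_num)
    set N := A ∪ Φ '' Sh n (1 / 2) with hN
    have hNc : IsClosed N := h.closed.union (h.closed_Sh _)
    have hC1 : IsClosed (Prod.fst '' ((N ×ˢ (univ : Set I)) ∩ R ⁻¹' Wᶜ)) :=
      isClosedMap_fst_of_compactSpace _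
        (hRc.preimage_isClosed_of_isClosed (hNc.prod isClosed_univ) hW.isClosed_compl)
    have hR1c : ContinuousOn (fun p => R (p, 1)) N :=
      hRc.comp (continuous_id.prodMk continuous_const).continuousOn fun p hp => ⟨hp, mem_univ _⟩
    have hC2 : IsClosed (N ∩ (fun p => R (p, 1)) ⁻¹' Uᶜ) :=
      hR1c.preimage_isClosed_of_isClosed hNc hU.isClosed_compl
    have hC3 : IsClosed (Φ '' closedBall 0 (1 / 2)) := h.closed_ball (by norm_num)
    refine ⟨_, ((hC1.union hC2).union hC3).isOpen_compl, ?_, ?_⟩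
    · rintro ((⟨⟨p, t⟩, ⟨-, h2⟩, rfl⟩ | ⟨-, h2⟩) | ⟨z, hz, rfl⟩)
      · exact h2 (by rw [hRA _ hxA]; exact hxW)
      · exact h2 (by simp only [hRA _ hxA]; exact hxU)
      · exact h.not_mem ((mem_closedBall_zero_iff.1 hz).trans_lt (by norm_num)) hxA
    set S := (A ∪ Φ '' closedBall 0 1) ∩ (Prod.fst '' ((N ×ˢ (univ : Set I)) ∩ R ⁻¹' Wᶜ) ∪
      N ∩ (fun p => R (p, 1)) ⁻¹' Uᶜ ∪ Φ '' closedBall 0 (1 / 2))ᶜ with hS
    have hSN : ∀ v ∈ S, v ∈ N := by
      rintro v ⟨h1 | ⟨z, hz, rfl⟩, h2⟩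
      · exact Or.inl h1
      · refine Or.inr ⟨z, ⟨?_, mem_closedBall_zero_iff.1 hz⟩, rfl⟩
        by_contra h3
        exact h2 (Or.inr ⟨z, mem_closedBall_zero_iff.2 (by linarith), rfl⟩)
    have hSW : ∀ v ∈ S, ∀ t, R (v, t) ∈ W := by
      intro v hv t
      by_contra h3
      exact hv.2 (Or.inl (Or.inl ⟨(v, t), ⟨⟨hSN v hv, mem_univ _⟩, h3⟩, rfl⟩))
    have hSU : ∀ v ∈ S, R (v, 1) ∈ A ∩ U := by
      intro v hv
      refine ⟨hR1 v (hSN v hv), ?_⟩
      by_contra h3
      exact hv.2 (Or.inl (Or.inr ⟨hSN v hv, h3⟩))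
    have hsub : N ⊆ A ∪ Φ '' closedBall 0 1 :=
      union_subset_union_right _ (image_mono (Sh_sub _ _))
    refine ⟨fun p => if (p.2 : ℝ) ≤ 1 / 2 then R (p.1, cl (2 * p.2))
      else H0 (R (p.1, 1), cl (2 * p.2 - 1)), ?_, fun v hv => ⟨?_, ?_, fun t => ?_⟩⟩
    · have f1 : ContinuousOn (fun p : Z × I => R (p.1, cl (2 * p.2))) (S ×ˢ univ) :=
        hRc.comp (by fun_prop) fun p hp => ⟨hSN _ hp.1, mem_univ _⟩
      have f2 : ContinuousOn (fun p : Z × I => H0 (R (p.1, 1), cl (2 * p.2 - 1))) (S ×ˢ univ) :=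
        hH0c.comp ((hR1c.comp continuousOn_fst fun p hp => hSN _ hp.1).prodMk (by fun_prop))
          fun p hp => ⟨hSU _ hp.1, mem_univ _⟩
      rw [continuousOn_iff_continuous_domRestrict] at f1 f2 ⊢
      refine Continuous.if_le f1 f2 (by fun_prop) continuous_const fun p hp => ?_
      simp only [hp]
      norm_num
      exact ((hH0 _ (hSU _ p.2.1)).1).symm
    · simpa using hR0 v (hSN v hv)
    · have : ¬ ((1 : ℝ) ≤ 1 / 2) := by norm_num
      simp only [Icc.coe_one, this, if_false]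
      norm_num
      exact (hH0 _ (hSU v hv)).2.1
    · dsimp only
      split_ifs
      · exact ⟨hsub (hRN v (hSN v hv) _), hSW v hv _⟩
      · have := (hH0 _ (hSU v hv)).2.2 (cl (2 * t - 1))
        exact ⟨Or.inl this.1, this.2⟩
  · obtain ⟨z0, hz0, rfl⟩ := hx.resolve_left hxA
    have hz1 : ‖z0‖ < 1 := h.lt_of_not_mem (mem_closedBall_zero_iff.1 hz0) hxA
    have hca : ContinuousAt Φ z0 :=
      h.cont.continuousAt (Filter.mem_of_superset (isOpen_ball.mem_nhds (mem_ball_zero_iff.2 hz1))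
        ball_subset_closedBall)
    obtain ⟨r, hr, hrs⟩ := Metric.mem_nhds_iff.1 (Filter.inter_mem (hca (hW.mem_nhds hxW))
      (isOpen_ball.mem_nhds (mem_ball_zero_iff.2 hz1)))
    have hC : IsClosed (Φ '' (closedBall 0 1 \ ball z0 r)) :=
      (((isCompact_closedBall _ _).diff isOpen_ball).image_of_continuousOn
        (h.cont.mono sdiff_subset)).isClosed
    have hS : ∀ v ∈ (A ∪ Φ '' closedBall 0 1) ∩ (A ∪ Φ '' (closedBall 0 1 \ ball z0 r))ᶜ,
        v ∈ Φ.target ∧ Φ.symm v ∈ ball z0 r := by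
      rintro v ⟨h1 | ⟨z, hz, rfl⟩, h2⟩
      · exact absurd (Or.inl h1) h2
      · have h3 : z ∈ ball z0 r := by
          by_contra h3
          exact h2 (Or.inr ⟨z, ⟨hz, h3⟩, rfl⟩)
        have h4 := mem_ball_zero_iff.1 (hrs h3).2
        rw [h.inv h4]
        exact ⟨h.mem_tgt h4, h3⟩
    have hseg : ∀ z ∈ ball z0 r, ∀ t : I, (1 - (t : ℝ)) • z + (t : ℝ) • z0 ∈ ball z0 r :=
      fun z hz t => convex_ball z0 r hz (mem_ball_self hr) (sub_nonneg.2 t.2.2) t.2.1 (by ring)
    refine ⟨_, (h.closed.union hC).isOpen_compl, ?_,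
      fun p => Φ ((1 - (p.2 : ℝ)) • Φ.symm p.1 + (p.2 : ℝ) • z0), ?_, fun v hv => ⟨?_, ?_, ?_⟩⟩
    · rintro (h1 | ⟨z, hz, h1⟩)
      · exact hxA h1
      · have h2 := h.lt_of_not_mem (mem_closedBall_zero_iff.1 hz.1) (h1 ▸ hxA)
        have h3 : z = z0 := by rw [← h.inv h2, h1, h.inv hz1]
        exact hz.2 (h3 ▸ mem_ball_self hr)
    · refine h.cont.comp ?_ fun p hp => ball_subset_closedBall (hrs (hseg _ (hS _ hp.1).2 _)).2
      have h1 : ContinuousOn (fun p : Z × I => Φ.symm p.1) _ :=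
        h.contS.comp continuousOn_fst fun p (hp : p ∈ _ ×ˢ univ) => (hS _ hp.1).1
      have h2 : Continuous fun p : Z × I => 1 - (p.2 : ℝ) := by fun_prop
      have h3 : Continuous fun p : Z × I => (p.2 : ℝ) • z0 := by fun_prop
      exact (h2.continuousOn.smul h1).add h3.continuousOn
    · simp [Φ.right_inv (hS v hv).1]
    · simp
    · intro t
      have := hrs (hseg _ (hS v hv).2 t)
      exact ⟨Or.inr ⟨_, ball_subset_closedBall this.2, rfl⟩, this.1⟩

/-- A finite CW complex is locally contractible. -/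
theorem lc_of_cw {X : Type} [TopologicalSpace X] [T2Space X] [CWComplex (univ : Set X)]
    [hfin : RelCWComplex.Finite (univ : Set X)] : LC (univ : Set X) := by
  classical
  have hsk : ∀ k, LC (sk X k) := by
    intro k
    induction k with
    | zero => rw [sk_zero]; exact fun x hx => hx.elim
    | succ k ih =>
      have hF : ∀ F, LC (skF (X := X) k F) := by
        intro F
        induction F using Finset.induction_on with
        | empty => rwa [skF_empty]
        | insert e F he ihF => rw [skF_insert]; exact ihF.attach (isCell_skF k F e he)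
      obtain ⟨F, h⟩ := exists_skF (isCompact_sk (X := X) (k + 1)) subset_rfl
      have h2 : sk X (k + 1) = skF k F := by
        refine h.antisymm (union_subset (sk_mono (Nat.le_succ k)) ?_)
        simp only [iUnion_subset_iff]
        intro e _
        have := RelCWComplex.closedCell_subset_skeletonLT (C := (univ : Set X)) k e
        exact_mod_cast this
      rw [h2]
      exact hF F
  have := compact_of_cw (K := X)
  obtain ⟨m, hm⟩ := exists_sk (isCompact_univ (X := X))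
  rw [← univ_subset_iff.1 hm]
  exact hsk m

end Pool.Agent.H968Z.SC
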