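import Mathlib
import Pool.Agent.H968Z.SC.LC
import Pool.Agent.H968Z.SC.Approx

set_option autoImplicit false

namespace Pool.Agent.H968Z.SC

open unitInterval Set Topology

lemma t2_of_closed_rel {K Q : Type} [TopologicalSpace K] [CompactSpace K] [T2Space K]
    [TopologicalSpace Q] {q : K → Q} (hq : IsQuotientMap q)
    (hR : IsClosed {p : K × K | q p.1 = q p.2}) : T2Space Q := by
  have hsat : ∀ C : Set K, IsClosed C → IsClosed (q ⁻¹' (q '' C)) := by
    intro C hC
    have h1 : q ⁻¹' (q '' C) = Prod.fst '' ({p : K × K | q p.1 = q p.2} ∩ univ ×ˢ C) := by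
      ext a
      constructor
      · rintro ⟨b, hb, h⟩
        exact ⟨(a, b), ⟨h.symm, mem_univ _, hb⟩, rfl⟩
      · rintro ⟨⟨a, b⟩, ⟨h, -, hb⟩, rfl⟩
        exact ⟨b, hb, h.symm⟩
    rw [h1]
    exact ((hR.inter (isClosed_univ.prod hC)).isCompact.image continuous_fst).isClosed
  have hc : IsClosedMap q := fun C hC => hq.isClosed_preimage.1 (hsat C hC)
  have hp : IsProperMap q := isProperMap_iff_isClosedMap_and_compact_fibers.2
    ⟨hq.continuous, hc, fun y => by
      obtain ⟨a, rfl⟩ := hq.surjective y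
      have := hsat {a} isClosed_singleton
      rw [image_singleton] at this
      exact this.isCompact⟩
  rw [t2_iff_isClosed_diagonal]
  have := (hp.prodMap hp).isClosedMap _ hR
  convert this using 1
  ext ⟨x, y⟩
  constructor
  · rintro (rfl : x = y)
    obtain ⟨a, rfl⟩ := hq.surjective x
    exact ⟨(a, a), rfl, rfl⟩
  · rintro ⟨⟨a, b⟩, h, h'⟩
    simp only [Prod.map_apply, Prod.mk.injEq] at h'
    exact h'.1.symm.trans (h.trans h'.2)

lemma quot_of_compact {A B K : Type} [TopologicalSpace A] [TopologicalSpace B] [T2Space B]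
    [TopologicalSpace K] [CompactSpace K] {q : A → B} (hq : Continuous q) {j : K → A}
    (hj : Continuous j) (hs : Function.Surjective (q ∘ j)) : IsQuotientMap q :=
  IsQuotientMap.of_comp hj hq ((hq.comp hj).isClosedMap.isQuotientMap (hq.comp hj) hs)

/-- Attaching data: a closed subset of `D` with a map to `Y`. -/
structure Att (Y D : Type) [TopologicalSpace Y] [TopologicalSpace D] where
  S : Set D
  f : D → Y
  closed : IsClosed S
  cont : ContinuousOn f S

namespace Att

variable {Y D : Type} [TopologicalSpace Y] [TopologicalSpace D] (a : Att Y D)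

open Classical in
/-- Normal forms. -/
noncomputable def nf : Y ⊕ D → Y ⊕ D :=
  Sum.elim Sum.inl fun d => if d ∈ a.S then Sum.inl (a.f d) else Sum.inr d

/-- The adjunction space. -/
def T : Type := Quotient (Setoid.ker a.nf)

instance : TopologicalSpace a.T := inferInstanceAs (TopologicalSpace (Quotient _))

/-- The quotient map. -/
noncomputable def pr : Y ⊕ D → a.T := Quotient.mk _

lemma quot_mk : IsQuotientMap a.pr := isQuotientMap_quotient_mk'

lemma mk_eq {p q : Y ⊕ D} : a.pr p = a.pr q ↔ a.nf p = a.nf q := Quotient.eq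

/-- The inclusion of the base. -/
noncomputable def inl : C(Y, a.T) := ⟨fun y => a.pr (Sum.inl y), a.quot_mk.continuous.comp continuous_inl⟩

/-- The map from the attached space. -/
noncomputable def inr : C(D, a.T) := ⟨fun d => a.pr (Sum.inr d), a.quot_mk.continuous.comp continuous_inr⟩

variable {a}

lemma nf_inl (y : Y) : a.nf (Sum.inl y) = Sum.inl y := rfl
lemma nf_mem {d : D} (h : d ∈ a.S) : a.nf (Sum.inr d) = Sum.inl (a.f d) := by simp [nf, h]
lemma nf_not {d : D} (h : d ∉ a.S) : a.nf (Sum.inr d) = Sum.inr d := by simp [nf, h]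

lemma inr_eq {d : D} (h : d ∈ a.S) : a.inr d = a.inl (a.f d) := a.mk_eq.2 (nf_mem h)

lemma inl_inj {y y' : Y} (h : a.inl y = a.inl y') : y = y' := Sum.inl_injective (a.mk_eq.1 h)

lemma inl_ne_inr {y : Y} {d : D} (h : d ∉ a.S) : a.inl y ≠ a.inr d := fun h' => by
  have := a.mk_eq.1 h'
  rw [nf_not h, nf_inl] at this
  exact Sum.inl_ne_inr this

lemma inr_inj {d d' : D} (hd : d ∉ a.S) (h : a.inr d = a.inr d') : d = d' := by
  by_cases h' : d' ∈ a.S
  · rw [inr_eq h'] at h
    exact absurd h.symm (inl_ne_inr hd)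
  · have := a.mk_eq.1 h
    rw [nf_not hd, nf_not h'] at this
    exact Sum.inr_injective this

lemma ind {p : a.T → Prop} (h1 : ∀ y, p (a.inl y)) (h2 : ∀ d, p (a.inr d)) (x : a.T) : p x := by
  obtain ⟨y | d, rfl⟩ := a.quot_mk.surjective x
  exacts [h1 y, h2 d]

lemma cases (x : a.T) : (∃ y, x = a.inl y) ∨ ∃ d, d ∉ a.S ∧ x = a.inr d := by
  induction x using ind with
  | h1 y => exact Or.inl ⟨y, rfl⟩
  | h2 d =>
    by_cases h : d ∈ a.S
    · exact Or.inl ⟨_, inr_eq h⟩
    · exact Or.inr ⟨d, h, rfl⟩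

/-- Functions out of the adjunction space. -/
noncomputable def elim {Z : Type} (u : Y → Z) (v : D → Z) (x : a.T) : Z :=
  Quotient.lift (fun p => Sum.elim u v (a.nf p)) (fun _ _ h => congrArg (Sum.elim u v) h) x

@[simp] lemma elim_inl {Z : Type} (u : Y → Z) (v : D → Z) (y : Y) :
    elim u v (a.inl y) = u y := rfl

lemma elim_not {Z : Type} (u : Y → Z) (v : D → Z) {d : D} (h : d ∉ a.S) :
    elim u v (a.inr d) = v d := congrArg (Sum.elim u v) (nf_not h)

lemma elim_inr {Z : Type} {u : Y → Z} {v : D → Z} (h : ∀ d ∈ a.S, v d = u (a.f d)) (d : D) :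
    elim u v (a.inr d) = v d := by
  by_cases hd : d ∈ a.S
  · rw [inr_eq hd, elim_inl, h d hd]
  · exact elim_not u v hd

lemma continuous_of {Z : Type} [TopologicalSpace Z] {g : a.T → Z}
    (h1 : Continuous fun y => g (a.inl y)) (h2 : Continuous fun d => g (a.inr d)) :
    Continuous g := a.quot_mk.continuous_iff.2 (continuous_sum_dom.2 ⟨h1, h2⟩)

lemma continuous_prod {Z P : Type} [TopologicalSpace Z] [TopologicalSpace P]
    [LocallyCompactSpace P] {g : a.T × P → Z}
    (h1 : Continuous fun p : Y × P => g (a.inl p.1, p.2))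
    (h2 : Continuous fun p : D × P => g (a.inr p.1, p.2)) : Continuous g := by
  refine a.quot_mk.continuous_lift_prod_left ?_
  rw [← Homeomorph.sumProdDistrib.symm.comp_continuous_iff', continuous_sum_dom]
  exact ⟨h1, h2⟩

/-- Maps out of the adjunction space. -/
noncomputable def lift {Z : Type} [TopologicalSpace Z] (u : C(Y, Z)) (v : C(D, Z))
    (h : ∀ d ∈ a.S, v d = u (a.f d)) : C(a.T, Z) :=
  ⟨elim u v, continuous_of u.continuous (by simpa only [elim_inr h] using v.continuous)⟩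

@[simp] lemma lift_inl {Z : Type} [TopologicalSpace Z] (u : C(Y, Z)) (v : C(D, Z))
    (h : ∀ d ∈ a.S, v d = u (a.f d)) (y : Y) : lift u v h (a.inl y) = u y := rfl

@[simp] lemma lift_inr {Z : Type} [TopologicalSpace Z] (u : C(Y, Z)) (v : C(D, Z))
    (h : ∀ d ∈ a.S, v d = u (a.f d)) (d : D) : lift u v h (a.inr d) = v d := elim_inr h d

/-- Families of maps out of the adjunction space. -/
noncomputable def liftP {Z P : Type} [TopologicalSpace Z] [TopologicalSpace P]
    [LocallyCompactSpace P] (u : C(Y × P, Z)) (v : C(D × P, Z))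
    (h : ∀ d ∈ a.S, ∀ p, v (d, p) = u (a.f d, p)) : C(a.T × P, Z) :=
  ⟨fun x => elim (fun y => u (y, x.2)) (fun d => v (d, x.2)) x.1,
    continuous_prod u.continuous (by
      refine v.continuous.congr fun p => ?_
      exact (elim_inr (u := fun y => u (y, p.2)) (v := fun d => v (d, p.2))
        (fun d hd => h d hd p.2) p.1).symm)⟩

@[simp] lemma liftP_inl {Z P : Type} [TopologicalSpace Z] [TopologicalSpace P]
    [LocallyCompactSpace P] (u : C(Y × P, Z)) (v : C(D × P, Z))
    (h : ∀ d ∈ a.S, ∀ p, v (d, p) = u (a.f d, p)) (y : Y) (p : P) :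
    liftP u v h (a.inl y, p) = u (y, p) := rfl

@[simp] lemma liftP_inr {Z P : Type} [TopologicalSpace Z] [TopologicalSpace P]
    [LocallyCompactSpace P] (u : C(Y × P, Z)) (v : C(D × P, Z))
    (h : ∀ d ∈ a.S, ∀ p, v (d, p) = u (a.f d, p)) (d : D) (p : P) :
    liftP u v h (a.inr d, p) = v (d, p) :=
  elim_inr (u := fun y => u (y, p)) (v := fun d => v (d, p)) (fun d hd => h d hd p) d

instance [CompactSpace Y] [CompactSpace D] : CompactSpace a.T := Quotient.compactSpace

instance [CompactSpace Y] [CompactSpace D] [T2Space Y] [T2Space D] : T2Space a.T := by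
  refine t2_of_closed_rel a.quot_mk ?_
  have hS := a.closed.isCompact
  have c1 : ContinuousOn (fun d => (Sum.inl (a.f d) : Y ⊕ D)) a.S :=
    continuous_inl.comp_continuousOn a.cont
  have hA : IsClosed ((fun d => ((Sum.inl (a.f d), Sum.inr d) : (Y ⊕ D) × (Y ⊕ D))) '' a.S) :=
    (hS.image_of_continuousOn (c1.prodMk continuous_inr.continuousOn)).isClosed
  have hA' : IsClosed ((fun d => ((Sum.inr d, Sum.inl (a.f d)) : (Y ⊕ D) × (Y ⊕ D))) '' a.S) :=
    (hS.image_of_continuousOn (continuous_inr.continuousOn.prodMk c1)).isClosed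
  have hB0 : IsClosed ((a.S ×ˢ a.S) ∩ (fun p : D × D => (a.f p.1, a.f p.2)) ⁻¹' diagonal Y) :=
    ContinuousOn.preimage_isClosed_of_isClosed
      ((a.cont.comp continuousOn_fst fun p hp => hp.1).prodMk
        (a.cont.comp continuousOn_snd fun p hp => hp.2)) (a.closed.prod a.closed)
      isClosed_diagonal
  have hB := (hB0.isCompact.image (f := fun p : D × D =>
    ((Sum.inr p.1, Sum.inr p.2) : (Y ⊕ D) × (Y ⊕ D))) (by fun_prop)).isClosed
  convert ((isClosed_diagonal.union hA).union hA').union hB using 1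
  ext ⟨p, q⟩
  constructor
  · intro h
    rcases p with y | d <;> rcases q with y' | d'
    · obtain rfl : y = y' := inl_inj h
      exact Or.inl (Or.inl (Or.inl rfl))
    · have hd : d' ∈ a.S := by
        by_contra hd
        exact inl_ne_inr hd h
      obtain rfl : y = a.f d' := inl_inj (h.trans (inr_eq hd))
      exact Or.inl (Or.inl (Or.inr ⟨d', hd, rfl⟩))
    · have hd : d ∈ a.S := by
        by_contra hd
        exact inl_ne_inr hd h.symm
      obtain rfl : y' = a.f d := inl_inj (h.symm.trans (inr_eq hd))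
      exact Or.inl (Or.inr ⟨d, hd, rfl⟩)
    · by_cases hd : d ∈ a.S
      · by_cases hd' : d' ∈ a.S
        · exact Or.inr ⟨(d, d'), ⟨⟨hd, hd'⟩,
            inl_inj ((inr_eq hd).symm.trans (h.trans (inr_eq hd')))⟩, rfl⟩
        · exact absurd ((inr_eq hd).symm.trans h) (inl_ne_inr hd')
      · obtain rfl : d = d' := inr_inj hd h
        exact Or.inl (Or.inl (Or.inl rfl))
  · rintro (((h | ⟨d, hd, h⟩) | ⟨d, hd, h⟩) | ⟨⟨d, d'⟩, ⟨hd, h'⟩, h⟩)
    · exact congrArg a.pr h
    · cases h; exact (inr_eq hd).symm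
    · cases h; exact inr_eq hd
    · cases h; exact (inr_eq hd.1).trans ((congrArg a.inl h').trans (inr_eq hd.2).symm)

end Att

open Classical in
/-- A reduced double mapping cylinder glued to `Y` at both ends. -/
noncomputable def cyl {Y D : Type} [TopologicalSpace Y] [TopologicalSpace D] (S0 : Set D)
    (hS : IsClosed S0) (f0 f1 : C(D, Y)) (h : ∀ d ∈ S0, f1 d = f0 d) : Att Y (D × I) where
  S := {p | p.1 ∈ S0 ∨ p.2 = 0 ∨ p.2 = 1}
  f p := if p.2 = 1 then f1 p.1 else f0 p.1
  closed := (hS.preimage continuous_fst).union ((isClosed_eq continuous_snd continuous_const).union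
    (isClosed_eq continuous_snd continuous_const))
  cont := by
    have h1 : ContinuousOn (fun p : D × I => if p.2 = 1 then f1 p.1 else f0 p.1)
        {p | p.1 ∈ S0 ∨ p.2 = 0} := by
      refine (f0.continuous.comp continuous_fst).continuousOn.congr ?_
      rintro p (hp | hp)
      · simp only [h _ hp, ite_self, Function.comp_apply]
      · simp [hp]
    have h2 : ContinuousOn (fun p : D × I => if p.2 = 1 then f1 p.1 else f0 p.1) {p | p.2 = 1} :=
      (f1.continuous.comp continuous_fst).continuousOn.congr fun p hp => if_pos hp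
    refine (h1.union_of_isClosed h2 ((hS.preimage continuous_fst).union
      (isClosed_eq continuous_snd continuous_const))
      (isClosed_eq continuous_snd continuous_const)).mono ?_
    rintro p (hp | hp | hp)
    exacts [Or.inl (Or.inl hp), Or.inl (Or.inr hp), Or.inr hp]

section cyl

variable {Y D : Type} [TopologicalSpace Y] [TopologicalSpace D] {S0 : Set D}
  {hS : IsClosed S0} {f0 f1 : C(D, Y)} {h : ∀ d ∈ S0, f1 d = f0 d}

lemma cyl_zero (d : D) : (cyl S0 hS f0 f1 h).inr (d, 0) = (cyl S0 hS f0 f1 h).inl (f0 d) := by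
  rw [Att.inr_eq (Or.inr (Or.inl rfl))]; simp [cyl]

lemma cyl_one (d : D) : (cyl S0 hS f0 f1 h).inr (d, 1) = (cyl S0 hS f0 f1 h).inl (f1 d) := by
  rw [Att.inr_eq (Or.inr (Or.inr rfl))]; simp [cyl]

lemma cyl_mem {d : D} (hd : d ∈ S0) (t : I) :
    (cyl S0 hS f0 f1 h).inr (d, t) = (cyl S0 hS f0 f1 h).inl (f0 d) := by
  rw [Att.inr_eq (Or.inl hd)]; simp [cyl, h d hd]

lemma cyl_compat {Z : Type} {u : Y → Z} {v : D × I → Z} (h0 : ∀ d, v (d, 0) = u (f0 d))
    (h1 : ∀ d, v (d, 1) = u (f1 d)) (h2 : ∀ d ∈ S0, ∀ t, v (d, t) = u (f0 d)) :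
    ∀ p ∈ (cyl S0 hS f0 f1 h).S, v p = u ((cyl S0 hS f0 f1 h).f p) := by
  rintro ⟨d, t⟩ (hp | hp | hp)
  · simp [cyl, h d hp, h2 d hp]
  · obtain rfl : t = 0 := hp
    simp [cyl, h0]
  · obtain rfl : t = 1 := hp
    simp [cyl, h1]

end cyl

/-- A homotopy equivalence relative to `Y`. -/
def RelEq {Y A B : Type} [TopologicalSpace Y] [TopologicalSpace A] [TopologicalSpace B]
    (iA : C(Y, A)) (iB : C(Y, B)) : Prop :=
  ∃ (u : C(A, B)) (v : C(B, A)), (∀ y, u (iA y) = iB y) ∧ (∀ y, v (iB y) = iA y) ∧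
    (v.comp u).HomotopicRel (ContinuousMap.id A) (range iA) ∧
    (u.comp v).HomotopicRel (ContinuousMap.id B) (range iB)

section RelEq

variable {Y A B C : Type} [TopologicalSpace Y] [TopologicalSpace A] [TopologicalSpace B]
  [TopologicalSpace C] {iA : C(Y, A)} {iB : C(Y, B)} {iC : C(Y, C)}

lemma homotopicRel_precomp {f g : C(B, C)} {S : Set B} (h : f.HomotopicRel g S) (u : C(A, B))
    {T : Set A} (hT : MapsTo u T S) : (f.comp u).HomotopicRel (g.comp u) T := by
  obtain ⟨H⟩ := h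
  exact ⟨⟨⟨⟨fun p => H (p.1, u p.2), by fun_prop⟩, fun x => H.apply_zero _,
    fun x => H.apply_one _⟩, fun t x hx => H.eq_fst t (hT hx)⟩⟩

lemma RelEq.symm (h : RelEq iA iB) : RelEq iB iA := by
  obtain ⟨u, v, h1, h2, h3, h4⟩ := h
  exact ⟨v, u, h2, h1, h4, h3⟩

lemma RelEq.trans (h : RelEq iA iB) (h' : RelEq iB iC) : RelEq iA iC := by
  obtain ⟨u, v, h1, h2, h3, h4⟩ := h
  obtain ⟨u', v', h1', h2', h3', h4'⟩ := h'
  refine ⟨u'.comp u, v.comp v', fun y => by simp [h1, h1'], fun y => by simp [h2, h2'], ?_, ?_⟩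
  · exact ((homotopicRel_precomp h3' u (T := range iA)
      (by rintro _ ⟨y, rfl⟩; exact ⟨y, (h1 y).symm⟩)).comp_continuousMap v).trans h3
  · exact ((homotopicRel_precomp h4 v' (T := range iC)
      (by rintro _ ⟨y, rfl⟩; exact ⟨y, (h2' y).symm⟩)).comp_continuousMap u').trans h4'

lemma homotopicRel_of' {f g : C(A, B)} {S : Set A} (H : C(A × I, B)) (h0 : ∀ x, H (x, 0) = f x)
    (h1 : ∀ x, H (x, 1) = g x) (hS : ∀ x ∈ S, ∀ t, H (x, t) = f x) : f.HomotopicRel g S :=
  ⟨⟨⟨⟨fun p => H (p.2, p.1), by fun_prop⟩, h0, h1⟩, fun t x hx => hS x hx t⟩⟩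

end RelEq

/-- A collar structure of `S` in `D`. -/
structure Collar {D : Type} [TopologicalSpace D] (S : Set D) where
  h : C(D × I, D)
  δ : C(D, ℝ)
  h_zero : ∀ d, h (d, 0) = d
  h_fix : ∀ d ∈ S, ∀ t, h (d, t) = d
  δ_fix : ∀ d ∈ S, δ d = 0
  h_mem : ∀ d (t : I), δ d ≤ t → h (d, t) ∈ S

section slide

variable {Y D : Type} [TopologicalSpace Y] [TopologicalSpace D]

/-- The attaching data of a globally defined map. -/
def attOf (S : Set D) (hS : IsClosed S) (f : C(D, Y)) : Att Y D := ⟨S, f, hS, f.continuous.continuousOn⟩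

variable {S : Set D} {hS : IsClosed S} (c : Collar S)

/-- The slide along a homotopy of attaching maps. -/
noncomputable def slideG (f0 : C(D, Y)) (K : C(D × I, Y)) (hK : ∀ d, K (d, 0) = f0 d) :
    C(D × I, (attOf S hS f0).T) where
  toFun p := if c.δ p.1 ≤ p.2 then (attOf S hS f0).inl (K (c.h p, cl (p.2 - c.δ p.1)))
    else (attOf S hS f0).inr (c.h p)
  continuous_toFun := by
    refine Continuous.if_le (by fun_prop) (by fun_prop) (by fun_prop) (by fun_prop) fun p hp => ?_
    rw [Att.inr_eq (c.h_mem p.1 p.2 hp.le), hp, sub_self, cl_zero, hK]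
    rfl

lemma slideG_zero (f0 : C(D, Y)) (K : C(D × I, Y)) (hK : ∀ d, K (d, 0) = f0 d) (d : D) :
    slideG (hS := hS) c f0 K hK (d, 0) = (attOf S hS f0).inr d := by
  simp only [slideG, ContinuousMap.coe_mk, c.h_zero]
  split_ifs with h
  · have h1 := c.h_mem d 0 h
    rw [c.h_zero] at h1
    rw [Att.inr_eq h1, c.δ_fix d h1]
    simp [hK, attOf]
  · rfl

lemma slideG_mem (f0 : C(D, Y)) (K : C(D × I, Y)) (hK : ∀ d, K (d, 0) = f0 d) {d : D}
    (hd : d ∈ S) (t : I) : slideG (hS := hS) c f0 K hK (d, t) = (attOf S hS f0).inl (K (d, t)) := by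
  simp [slideG, c.δ_fix d hd, c.h_fix d hd, t.2.1]

/-- The slide map. -/
noncomputable def slide (f0 f1 : C(D, Y)) (K : C(D × I, Y)) (hK : ∀ d, K (d, 0) = f0 d)
    (hK1 : ∀ d, K (d, 1) = f1 d) : C((attOf S hS f1).T, (attOf S hS f0).T) :=
  Att.lift (attOf S hS f0).inl ⟨fun d => slideG c f0 K hK (d, 1), by fun_prop⟩ fun d hd => by
    simp only [ContinuousMap.coe_mk]
    rw [slideG_mem c f0 K hK hd, hK1]
    rfl

lemma slide_slide (f0 f1 : C(D, Y)) (K K' : C(D × I, Y)) (hK : ∀ d, K (d, 0) = f0 d)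
    (hK1 : ∀ d, K (d, 1) = f1 d) (hK' : ∀ d, K' (d, 0) = f1 d) (hK1' : ∀ d, K' (d, 1) = f0 d)
    (hKK : ∀ d (x : ℝ), K' (d, cl (1 - x)) = K (d, cl x)) :
    ((slide (hS := hS) c f0 f1 K hK hK1).comp (slide c f1 f0 K' hK' hK1')).HomotopicRel
      (ContinuousMap.id _) (range (attOf S hS f0).inl) := by
  let Γ : C(D × I, (attOf S hS f0).T) :=
    ⟨fun p => if c.δ p.1 ≤ p.2 then (attOf S hS f0).inl (K (c.h p, cl (c.δ p.1)))
      else slideG c f0 K hK (c.h p, p.2), by
      refine Continuous.if_le (by fun_prop) (by fun_prop) (by fun_prop) (by fun_prop)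
        fun p hp => ?_
      rw [slideG_mem c f0 K hK (c.h_mem p.1 p.2 hp.le), hp, cl_coe]⟩
  refine (homotopicRel_of' (Att.liftP ((attOf S hS f0).inl.comp ContinuousMap.fst) Γ ?_)
    ?_ ?_ ?_).symm
  · intro d hd t
    simp only [Γ, ContinuousMap.coe_mk, c.δ_fix d hd, c.h_fix d hd, t.2.1, hK, if_true, cl_zero]
    rfl
  · refine Att.ind (fun y => rfl) fun d => ?_
    simp only [Att.liftP_inr, Γ, ContinuousMap.coe_mk, c.h_zero, slideG_zero,
      ContinuousMap.id_apply]
    split_ifs with h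
    · have h1 := c.h_mem d 0 h
      rw [c.h_zero] at h1
      rw [Att.inr_eq h1, c.δ_fix d h1]
      simp [hK, attOf]
    · rfl
  · refine Att.ind (fun y => rfl) fun d => ?_
    simp only [Att.liftP_inr, Γ, ContinuousMap.coe_mk, ContinuousMap.comp_apply, slide,
      Att.lift_inr]
    rw [show slideG (hS := hS) c f1 K' hK' (d, 1) = ite _ _ _ from rfl]
    split_ifs with h
    · rw [Att.lift_inl, ← hKK]
      rfl
    · rw [Att.lift_inr]
      rfl
  · rintro _ ⟨y, rfl⟩ t
    rfl

lemma cl_val (x : ℝ) : (cl x : ℝ) = max 0 (min 1 x) := rfl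

lemma symm_cl (x : ℝ) : σ (cl (1 - x)) = cl x := by
  apply Subtype.ext
  simp only [coe_symm_eq, cl_val, max_def, min_def]
  split_ifs <;> linarith

include c in
/-- Homotopic attaching maps give equivalent adjunction spaces. -/
theorem relEq_slide (f0 f1 : C(D, Y)) (K : C(D × I, Y)) (hK : ∀ d, K (d, 0) = f0 d)
    (hK1 : ∀ d, K (d, 1) = f1 d) : RelEq (attOf S hS f0).inl (attOf S hS f1).inl := by
  let K' : C(D × I, Y) := ⟨fun p => K (p.1, σ p.2), by fun_prop⟩
  have hK' : ∀ d, K' (d, 0) = f1 d := fun d => by simp [K', hK1]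
  have hK1' : ∀ d, K' (d, 1) = f0 d := fun d => by simp [K', hK]
  have hs := symm_cl
  refine ⟨slide c f1 f0 K' hK' hK1', slide c f0 f1 K hK hK1, fun _ => rfl, fun _ => rfl,
    slide_slide c f0 f1 K K' hK hK1 hK' hK1' fun d x => by simp [K', hs],
    slide_slide c f1 f0 K' K hK' hK1' hK hK1 fun d x => ?_⟩
  have := hs (1 - x)
  simp only [sub_sub_cancel] at this
  simp [K', this]

end slide

/-- The fractional part as a point of the unit interval. -/
noncomputable def fr (y : ℝ) : I := ⟨Int.fract y, Int.fract_nonneg y, (Int.fract_lt_one y).le⟩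

/-- Two families of paths that follow each other give a family of maps on the line. -/
noncomputable def per2 {X Z : Type} [TopologicalSpace X] [TopologicalSpace Z] (A B : C(X × I, Z))
    (h1 : ∀ p, A (p, 1) = B (p, 0)) (h2 : ∀ p, B (p, 1) = A (p, 0)) : C(X × ℝ, Z) where
  toFun q := if Even ⌊q.2⌋ then A (q.1, fr q.2) else B (q.1, fr q.2)
  continuous_toFun := by
    have key : ∀ n : ℤ, ContinuousOn (fun q : X × ℝ =>
        if Even ⌊q.2⌋ then A (q.1, fr q.2) else B (q.1, fr q.2)) (univ ×ˢ Icc (n : ℝ) (n + 1)) := by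
      intro n
      have hc : Continuous fun q : X × ℝ =>
          if Even n then A (q.1, cl (q.2 - n)) else B (q.1, cl (q.2 - n)) := by
        split_ifs <;> fun_prop
      refine hc.continuousOn.congr ?_
      rintro ⟨p, y⟩ ⟨-, hy1, hy2⟩
      rcases hy2.lt_or_eq with h | h
      · have h3 : ⌊y⌋ = n := Int.floor_eq_iff.2 ⟨hy1, h⟩
        have h4 : fr y = cl (y - n) := by rw [← h3, ← cl_coe (fr y)]; rfl
        simp only [h3, h4]
      · obtain rfl : y = n + 1 := h
        have h3 : ⌊(n : ℝ) + 1⌋ = n + 1 := by simp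
        have h4 : fr ((n : ℝ) + 1) = 0 := Subtype.ext (by simp [fr])
        simp only [h3, h4, add_sub_cancel_left, cl_one, Int.even_add_one, h1, h2, ite_not]
    rw [continuous_iff_continuousAt]
    intro q
    have h3 := (key (⌊q.2⌋ - 1)).union_of_isClosed (key ⌊q.2⌋) (isClosed_univ.prod isClosed_Icc)
      (isClosed_univ.prod isClosed_Icc)
    refine h3.continuousAt (Filter.mem_of_superset (prod_mem_nhds Filter.univ_mem
      (Ioo_mem_nhds (a := (⌊q.2⌋ : ℝ) - 1) (by linarith [Int.floor_le q.2])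
        (Int.lt_floor_add_one q.2))) ?_)
    rintro ⟨p, y⟩ ⟨-, hy1, hy2⟩
    rcases le_total y ⌊q.2⌋ with h | h
    · exact Or.inl ⟨mem_univ _, by push_cast; exact hy1.le, by push_cast; linarith⟩
    · exact Or.inr ⟨mem_univ _, h, hy2.le⟩

lemma per2_apply {X Z : Type} [TopologicalSpace X] [TopologicalSpace Z] (A B : C(X × I, Z))
    (h1 : ∀ p, A (p, 1) = B (p, 0)) (h2 : ∀ p, B (p, 1) = A (p, 0)) (p : X) (y : ℝ) :
    per2 A B h1 h2 (p, y) = if Even ⌊y⌋ then A (p, fr y) else B (p, fr y) := rfl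

lemma fr_add_one (y : ℝ) : fr (y + 1) = fr y := Subtype.ext (Int.fract_add_one y)

lemma per2_coe {X Z : Type} [TopologicalSpace X] [TopologicalSpace Z] (A B : C(X × I, Z))
    (h1 : ∀ p, A (p, 1) = B (p, 0)) (h2 : ∀ p, B (p, 1) = A (p, 0)) (p : X) (t : I) :
    per2 A B h1 h2 (p, t) = A (p, t) := by
  rw [per2_apply]
  rcases t.2.2.lt_or_eq with h | h
  · have h3 : ⌊(t : ℝ)⌋ = 0 := Int.floor_eq_zero_iff.2 ⟨t.2.1, h⟩
    have h4 : fr t = t := Subtype.ext (Int.fract_eq_self.2 ⟨t.2.1, h⟩)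
    simp [h3, h4]
  · obtain rfl : t = 1 := Subtype.ext h
    have h4 : fr 1 = 0 := Subtype.ext (by simp [fr])
    simp [h4, h1]

end Pool.Agent.H968Z.SC
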