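import Mathlib
import Pool.Agent.H968Z.SC.LC

set_option autoImplicit false

namespace Pool.Agent.H968Z.SC

open unitInterval Set Metric Topology Filter

/-- A retract of a finitely presented group is finitely presented. -/
theorem fp_of_retract {G H : Type} [Group G] [Group H] [hG : Group.IsFinitelyPresented G]
    (r : G →* H) (m : H →* G) (hrm : ∀ x, r (m x) = x) : Group.IsFinitelyPresented H := by
  refine Group.IsFinitelyPresented.of_surjective r (fun x => ⟨m x, hrm x⟩) ?_
  obtain ⟨n, φ, hφ, -⟩ := hG.out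
  let S : Set G := range fun i : Fin n => (φ (FreeGroup.of i))⁻¹ * m (r (φ (FreeGroup.of i)))
  refine ⟨S, finite_range _, le_antisymm ?_ ?_⟩
  · refine Subgroup.normalClosure_le_normal ?_
    rintro _ ⟨i, rfl⟩
    simp [hrm]
  · intro g hg
    obtain ⟨w, rfl⟩ := hφ g
    have h1 : (QuotientGroup.mk' (Subgroup.normalClosure S)).comp φ =
        (QuotientGroup.mk' (Subgroup.normalClosure S)).comp (m.comp (r.comp φ)) := by
      ext i
      simp only [MonoidHom.comp_apply, QuotientGroup.mk'_apply]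
      exact QuotientGroup.eq.2 (Subgroup.subset_normalClosure ⟨i, rfl⟩)
    have h2 := DFunLike.congr_fun h1 w
    simp only [MonoidHom.comp_apply, QuotientGroup.mk'_apply, MonoidHom.mem_ker.1 hg,
      map_one] at h2
    exact (QuotientGroup.eq_one_iff _).1 h2

section om

variable {Y : Type} [TopologicalSpace Y] [PathConnectedSpace Y] (y0 : Y)

/-- The loop class attached to a path class. -/
noncomputable def wq {a b : Y} (q : Path.Homotopic.Quotient a b) : FundamentalGroup Y y0 :=
  FundamentalGroup.fromPath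
    (((Path.Homotopic.Quotient.mk (PathConnectedSpace.somePath y0 a)).trans q).trans
      (Path.Homotopic.Quotient.mk (PathConnectedSpace.somePath y0 b)).symm)

lemma wq_trans {a b c : Y} (q : Path.Homotopic.Quotient a b) (q' : Path.Homotopic.Quotient b c) :
    wq y0 (q.trans q') = wq y0 q' * wq y0 q := by
  unfold wq
  rw [FundamentalGroup.mul_def]
  simp only [FundamentalGroup.fromPath, FundamentalGroup.fromArrow,
    Path.Homotopic.Quotient.trans_assoc]
  rw [← Path.Homotopic.Quotient.trans_assoc (Path.Homotopic.Quotient.symm _),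
    Path.Homotopic.Quotient.symm_trans, Path.Homotopic.Quotient.refl_trans]

lemma wq_refl (a : Y) : wq y0 (Path.Homotopic.Quotient.refl a) = 1 := by
  have := wq_trans y0 (Path.Homotopic.Quotient.refl a) (Path.Homotopic.Quotient.refl a)
  rw [Path.Homotopic.Quotient.refl_trans] at this
  exact (mul_eq_left.1 this.symm)

lemma wq_loop : ∃ p : FundamentalGroup Y y0, ∀ q : FundamentalGroup Y y0,
    wq y0 q.toPath = p⁻¹ * (q * p) :=
  ⟨FundamentalGroup.fromPath (Path.Homotopic.Quotient.mk (PathConnectedSpace.somePath y0 y0)),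
    fun _ => rfl⟩

open Classical in
/-- The loop class attached to a path. -/
noncomputable def om (γ : I → Y) : FundamentalGroup Y y0 :=
  if h : Continuous γ then
    wq y0 (Path.Homotopic.Quotient.mk (⟨⟨γ, h⟩, rfl, rfl⟩ : Path (γ 0) (γ 1))) else 1

lemma om_path {a b : Y} (p : Path a b) : om y0 p = wq y0 (Path.Homotopic.Quotient.mk p) := by
  obtain ⟨⟨γ, h⟩, rfl, rfl⟩ := p
  unfold om
  exact dif_pos h

lemma om_const (z : Y) : om y0 (fun _ => z) = 1 := by
  have := om_path y0 (Path.refl z)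
  rw [Path.Homotopic.Quotient.mk_refl, wq_refl] at this
  exact this

lemma om_sq (Φ : I → I → Y) (hΦ : Continuous fun p : I × I => Φ p.1 p.2) :
    om y0 (fun t => Φ t 1) * om y0 (Φ 0) = om y0 (Φ 1) * om y0 (fun t => Φ t 0) := by
  have : ContractibleSpace I := (convex_Icc (0 : ℝ) 1).contractibleSpace ⟨0, by simp⟩
  let B : Path ((0 : I), (0 : I)) ((0 : I), (1 : I)) :=
    ⟨⟨fun s => (0, s), by fun_prop⟩, rfl, rfl⟩
  let T : Path ((1 : I), (0 : I)) ((1 : I), (1 : I)) :=
    ⟨⟨fun s => (1, s), by fun_prop⟩, rfl, rfl⟩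
  let L : Path ((0 : I), (0 : I)) ((1 : I), (0 : I)) :=
    ⟨⟨fun s => (s, 0), by fun_prop⟩, rfl, rfl⟩
  let R : Path ((0 : I), (1 : I)) ((1 : I), (1 : I)) :=
    ⟨⟨fun s => (s, 1), by fun_prop⟩, rfl, rfl⟩
  let f : C(I × I, Y) := ⟨_, hΦ⟩
  have h1 := (SimplyConnectedSpace.paths_homotopic (B.trans R) (L.trans T)).map f
  rw [Path.map_trans, Path.map_trans] at h1
  have h2 := congrArg (wq y0) (Path.Homotopic.Quotient.eq.2 h1)
  rw [Path.Homotopic.Quotient.mk_trans, Path.Homotopic.Quotient.mk_trans, wq_trans, wq_trans,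
    ← om_path, ← om_path, ← om_path, ← om_path] at h2
  exact h2

end om

lemma finite_image_of_loc {Z α : Type} [TopologicalSpace Z] {K : Set Z} (hK : IsCompact K)
    {f : Z → α} (hf : ∀ y ∈ K, ∀ᶠ y' in 𝓝 y, f y' = f y) : (f '' K).Finite := by
  obtain ⟨t, -, ht⟩ := hK.elim_nhds_subcover (fun y => {y' | f y' = f y}) hf
  refine (t.finite_toSet.image f).subset ?_
  rintro _ ⟨y, hy, rfl⟩
  have := ht hy
  simp only [mem_iUnion, mem_ofPred_eq] at this
  obtain ⟨y', h1, h2⟩ := this
  exact ⟨y', h1, h2.symm⟩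

/-- A group valued cocycle gives a homomorphism from the fundamental group. -/
theorem exists_hom_of_cocycle {Y : Type} [TopologicalSpace Y] [PathConnectedSpace Y] (y0 : Y)
    {ι Γ : Type} [Group Γ] (V : ι → Set Y) (hV : ∀ i, IsOpen (V i)) (hcov : ∀ y, ∃ i, y ∈ V i)
    (c : ι → ι → Y → Γ) (hc : ∀ i j, ∀ y ∈ V i ∩ V j, ∀ᶠ y' in 𝓝 y, c i j y' = c i j y)
    (hcc : ∀ i j k, ∀ y ∈ V i ∩ V j ∩ V k, c j k y * c i j y = c i k y)
    (α : Γ →* FundamentalGroup Y y0) (e : ι → Y → FundamentalGroup Y y0)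
    (hα : ∀ i j, ∀ y ∈ V i ∩ V j, α (c i j y) = e j y * (e i y)⁻¹)
    (he : ∀ i (γ : I → Y), Continuous γ → (∀ s, γ s ∈ V i) → e i (γ 1) * om y0 γ = e i (γ 0)) :
    ∃ m : FundamentalGroup Y y0 →* Γ, ∀ g, α (m g) = g := by
  let _ : TopologicalSpace Γ := ⊥
  have _ : DiscreteTopology Γ := ⟨rfl⟩
  choose idx hidx using hcov
  have hself : ∀ i, ∀ y ∈ V i, c i i y = 1 := fun i y hy => by
    simpa using hcc i i i y ⟨⟨hy, hy⟩, hy⟩
  let Z : FiberBundleCore ι Y Γ :=
    { baseSet := V
      isOpen_baseSet := hV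
      indexAt := idx
      mem_baseSet_at := hidx
      coordChange := fun i j y s => c i j y * s
      coordChange_self := fun i y hy v => by rw [hself i y hy, one_mul]
      continuousOn_coordChange := fun i j p hp => by
        refine ContinuousAt.continuousWithinAt ?_
        have h1 : ∀ᶠ q : Y × Γ in 𝓝 p, c i j p.1 * q.2 = c i j q.1 * q.2 :=
          (continuous_fst.continuousAt.eventually (hc i j p.1 hp.1)).mono fun q hq => by rw [hq]
        exact ((continuous_of_discreteTopology (f := fun s => c i j p.1 * s)).comp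
          continuous_snd).continuousAt.congr h1
      coordChange_comp := fun i j k y hy v => by rw [← mul_assoc, hcc i j k y hy] }
  have hcov : IsCoveringMap (Bundle.TotalSpace.proj : Z.TotalSpace → Y) :=
    FiberBundle.isCoveringMap (F := Γ) (E := Z.Fiber)
  let _ : MulAction Γ Z.TotalSpace :=
    { smul := fun g p => ⟨p.1, (show Γ from p.2) * g⁻¹⟩
      one_smul := fun p => congrArg (fun s : Γ => (⟨p.1, s⟩ : Z.TotalSpace))
        (show (show Γ from p.2) * 1⁻¹ = (show Γ from p.2) by rw [inv_one, mul_one])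
      mul_smul := fun a b p => congrArg (fun s : Γ => (⟨p.1, s⟩ : Z.TotalSpace))
        (show (show Γ from p.2) * (a * b)⁻¹ = (show Γ from p.2) * b⁻¹ * a⁻¹ by
          rw [mul_inv_rev, mul_assoc]) }
  have hsm : ∀ (g : Γ) (p : Z.TotalSpace), g • p = ⟨p.1, (show Γ from p.2) * g⁻¹⟩ := fun _ _ => rfl
  have hco : ∀ (i : ι) (p : Z.TotalSpace), p.1 ∈ V i →
      ContinuousAt (fun q : Z.TotalSpace => c (idx q.1) i q.1 * (show Γ from q.2)) p :=
    fun i p hp => continuous_snd.continuousAt.comp
      ((Z.localTriv i).continuousAt ((Z.mem_localTriv_source i p).2 hp))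
  have hq : IsQuotientCoveringMap (Bundle.TotalSpace.proj : Z.TotalSpace → Y) Γ := by
    refine (isQuotientCoveringMap_iff_isCoveringMap_and ..).2
      ⟨hcov, fun y => ⟨⟨y, (1 : Γ)⟩, rfl⟩, ⟨fun g => ?_⟩, ?_, ?_⟩
    · rw [continuous_iff_continuousAt]
      intro p
      rw [FiberBundle.continuousAt_totalSpace]
      refine ⟨hcov.continuous.continuousAt, ?_⟩
      have := ((continuous_of_discreteTopology (f := fun s : Γ => s * g⁻¹)).continuousAt).comp
        (hco (idx p.1) p (hidx _))
      refine this.congr (Eventually.of_forall fun q => ?_)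
      exact mul_assoc _ _ _
    · rw [isCancelSMul_iff_eq_one_of_smul_eq]
      rintro g ⟨y, s⟩ h
      have h1 : (show Γ from s) * g⁻¹ = s := eq_of_heq (Bundle.TotalSpace.mk.inj h).2
      simpa using h1
    · rintro ⟨y, s⟩ ⟨y', s'⟩
      constructor
      · rintro rfl
        refine ⟨(show Γ from s)⁻¹ * (show Γ from s'), ?_⟩
        exact congrArg (fun s : Γ => (⟨y, s⟩ : Z.TotalSpace))
          (show (show Γ from s') * ((show Γ from s)⁻¹ * (show Γ from s'))⁻¹ = (show Γ from s) by
            group)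
      · rintro ⟨g, hg⟩
        exact (congrArg Bundle.TotalSpace.proj hg).symm
  let Ψ : Z.TotalSpace → FundamentalGroup Y y0 := fun p => (e (idx p.1) p.1)⁻¹ * α p.2
  have hΨ : ∀ i (p : Z.TotalSpace), p.1 ∈ V i →
      Ψ p = (e i p.1)⁻¹ * α (c (idx p.1) i p.1 * (show Γ from p.2)) := by
    intro i p hp
    rw [map_mul, hα _ _ _ ⟨hidx _, hp⟩]
    simp only [Ψ]
    group
  have hlift : ∀ Γ' : I → Z.TotalSpace, Continuous Γ' →
      Ψ (Γ' 1) = om y0 (fun s => (Γ' s).1) * Ψ (Γ' 0) := by
    intro L hL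
    have hγ : Continuous fun s => (L s).1 := hcov.continuous.comp hL
    let F : I → FundamentalGroup Y y0 := fun t => (om y0 fun s => (L (s * t)).1)⁻¹ * Ψ (L t)
    have hF : IsLocallyConstant F := by
      rw [IsLocallyConstant.iff_eventually_eq]
      intro t
      set i := idx (L t).1 with hi
      have h1 : ∀ᶠ t' in 𝓝 t, (L t').1 ∈ V i := hγ.continuousAt.eventually ((hV i).mem_nhds (hidx _))
      have h2 : ∀ᶠ t' in 𝓝 t, c (idx (L t').1) i (L t').1 * (show Γ from (L t').2) =
          c (idx (L t).1) i (L t).1 * (show Γ from (L t).2) :=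
        ((hco i (L t) (hidx _)).comp hL.continuousAt).eventually
          ((isOpen_discrete {_}).mem_nhds rfl)
      obtain ⟨δ, hδ, h3⟩ := Metric.eventually_nhds_iff_ball.1 h1
      filter_upwards [h2, ball_mem_nhds t hδ] with t' h4 h5
      let sg : I → I := fun r => cl ((1 - r) * t + r * t')
      have hsg : ∀ r, sg r ∈ ball t δ := by
        intro r
        have a1 := r.2.1
        have a2 := r.2.2
        have hm : (1 - (r : ℝ)) * t + r * t' ∈ I :=
          ⟨by nlinarith [t.2.1, t'.2.1], by nlinarith [t.2.2, t'.2.2]⟩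
        have h6 : sg r = ⟨_, hm⟩ := cl_coe ⟨_, hm⟩
        rw [mem_ball, Subtype.dist_eq, Real.dist_eq] at h5 ⊢
        rw [h6]
        have h7 : (1 - (r : ℝ)) * t + r * t' - t = r * (t' - t) := by ring
        simp only [h7, abs_mul, abs_of_nonneg a1]
        nlinarith [abs_nonneg ((t' : ℝ) - t)]
      have hsc : Continuous sg := by fun_prop
      have h8 := om_sq y0 (fun r s => (L (s * sg r)).1) (hγ.comp (by fun_prop))
      have h9 := he i (fun r => (L (sg r)).1) (hγ.comp hsc) fun r => h3 _ (hsg r)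
      have s0 : sg 0 = t := by simp [sg]
      have s1 : sg 1 = t' := by simp [sg]
      simp only [s0, s1, one_mul, zero_mul, om_const, mul_one] at h8 h9
      simp only [F]
      rw [hΨ i (L t') (h3 _ h5), hΨ i (L t) (hidx _), h4, ← h8, ← h9]
      group
    have h1 := hF.apply_eq_of_preconnectedSpace 1 0
    simp only [F, mul_one, mul_zero, om_const, inv_one, one_mul] at h1
    rw [← h1]
    group
  obtain ⟨p, hp⟩ := wq_loop y0
  let e0 : (Bundle.TotalSpace.proj : Z.TotalSpace → Y) ⁻¹' {y0} := ⟨⟨y0, (1 : Γ)⟩, rfl⟩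
  let m : FundamentalGroup Y y0 →* Γ :=
    (MulEquiv.inv' Γ).symm.toMonoidHom.comp (hq.fundamentalGroupToMulOpposite e0)
  have hm : ∀ g, α (m g) = (e (idx y0) y0 * p⁻¹) * g * (e (idx y0) y0 * p⁻¹)⁻¹ := by
    intro g
    have h1 := hq.unop_fundamentalGroupToMulOpposite_smul (e := e0) (γ := g)
    obtain ⟨γ, rfl⟩ := Path.Homotopic.Quotient.mk_surjective g.toPath
    have h0 : γ 0 = e0.1.1 := γ.source
    have h2 := hlift _ (hcov.liftPath γ e0.1 h0).continuous
    have h3 : (fun s => (hcov.liftPath γ e0.1 h0 s).1) = γ := hcov.liftPath_lifts γ e0.1 h0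
    have h4 : hcov.liftPath γ e0.1 h0 1 = ⟨y0, (1 : Γ) * m (Path.Homotopic.Quotient.mk γ)⟩ :=
      h1.symm
    rw [h3, h4, hcov.liftPath_zero, om_path] at h2
    have h5 := hp (Path.Homotopic.Quotient.mk γ)
    simp only [Ψ, e0, one_mul] at h2
    rw [show wq y0 (Path.Homotopic.Quotient.mk γ) = _ from h5,
      show α (1 : Γ) = 1 from map_one α] at h2
    rw [← mul_inv_cancel_left (e (idx y0) y0) (α _), h2]
    group
  refine ⟨m.comp (MulAut.conj (e (idx y0) y0 * p⁻¹)⁻¹).toMonoidHom, fun g => ?_⟩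
  simp only [MonoidHom.comp_apply, hm, MulEquiv.coe_toMonoidHom, MulAut.conj_apply]
  group

/-- The fundamental group of a compact locally contractible space is finitely presented. -/
theorem fp_of_lc {Y : Type} [TopologicalSpace Y] [T2Space Y] [CompactSpace Y]
    [PathConnectedSpace Y] (hY : LC (univ : Set Y)) (y0 : Y) :
    Group.IsFinitelyPresented (FundamentalGroup Y y0) := by
  classical
  choose V hV hxV H hHc hH using fun x => hY x (mem_univ x) univ isOpen_univ (mem_univ x)
  simp only [univ_inter] at hHc hH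
  let e : Y → Y → FundamentalGroup Y y0 := fun x v => om y0 fun t => H x (v, t)
  have he : ∀ x (γ : I → Y), Continuous γ → (∀ s, γ s ∈ V x) →
      e x (γ 1) * om y0 γ = e x (γ 0) := by
    intro x γ hγ hm
    have h1 := om_sq y0 (fun t s => H x (γ s, t))
      ((hHc x).comp_continuous (by fun_prop) fun p => ⟨hm _, mem_univ _⟩)
    have e0 : (fun s => H x (γ s, 0)) = γ := funext fun s => (hH x _ (hm s)).1
    have e1 : (fun s => H x (γ s, 1)) = fun _ => x := funext fun s => (hH x _ (hm s)).2.1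
    simp only [e0, e1, om_const, one_mul] at h1
    exact h1
  have hloc : ∀ x x', ∀ y ∈ V x ∩ V x', ∀ᶠ y' in 𝓝 y,
      e x' y' * (e x y')⁻¹ = e x' y * (e x y)⁻¹ := by
    intro x x' y hy
    obtain ⟨U, hU, hyU, K, hKc, hK⟩ := hY y (mem_univ y) _ ((hV x).inter (hV x')) hy
    simp only [univ_inter] at hKc hK
    filter_upwards [hU.mem_nhds hyU] with v hv
    have hc : Continuous fun t => K (v, t) :=
      hKc.comp_continuous (by fun_prop) fun t => ⟨hv, mem_univ _⟩
    have h1 := he x _ hc fun t => ((hK v hv).2.2 t).1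
    have h2 := he x' _ hc fun t => ((hK v hv).2.2 t).2
    simp only [(hK v hv).1, (hK v hv).2.1] at h1 h2
    rw [← h1, ← h2]
    group
  choose K hK hxK hKV using fun x => exists_compact_subset (hV x) (hxV x)
  obtain ⟨s, hs⟩ := isCompact_univ.elim_finite_subcover (fun x => interior (K x))
    (fun _ => isOpen_interior) fun x _ => mem_iUnion.2 ⟨x, hxK x⟩
  let T : Set (FundamentalGroup Y y0) :=
    ⋃ i : s, ⋃ j : s, (fun y => e j y * (e i y)⁻¹) '' (K i ∩ K j)
  have hT : T.Finite := finite_iUnion fun i => finite_iUnion fun j =>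
    finite_image_of_loc ((hK i).inter (hK j)) fun y hy => hloc _ _ y ⟨hKV _ hy.1, hKV _ hy.2⟩
  have : Finite T := hT.to_subtype
  let rels : Set (FreeGroup T) := (fun p : T × T × T =>
    FreeGroup.of p.1 * FreeGroup.of p.2.1 * (FreeGroup.of p.2.2)⁻¹) '' {p | p.1.1 * p.2.1.1 = p.2.2.1}
  have : Finite rels := (Set.toFinite _ |>.image _).to_subtype
  have hrel : ∀ r ∈ rels, FreeGroup.lift (fun t : T => t.1) r = 1 := by
    rintro _ ⟨p, hp, rfl⟩
    simp only [mem_ofPred_eq] at hp
    simp [hp]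
  let br : FundamentalGroup Y y0 → PresentedGroup rels := fun g =>
    if h : g ∈ T then PresentedGroup.of ⟨g, h⟩ else 1
  have hmem : ∀ i j : s, ∀ y ∈ interior (K i) ∩ interior (K j), e j y * (e i y)⁻¹ ∈ T :=
    fun i j y hy => mem_iUnion.2 ⟨i, mem_iUnion.2 ⟨j, y,
      ⟨interior_subset hy.1, interior_subset hy.2⟩, rfl⟩⟩
  obtain ⟨m, hm⟩ := exists_hom_of_cocycle y0 (ι := s) (fun i => interior (K i))
    (fun _ => isOpen_interior)
    (fun y => by simpa using hs (mem_univ y)) (fun i j y => br (e j y * (e i y)⁻¹))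
    (fun i j y hy => (hloc i j y ⟨hKV _ (interior_subset hy.1), hKV _ (interior_subset hy.2)⟩).mono
      fun y' h => by simp only [h])
    (fun i j k y hy => by
      have h1 := hmem j k y ⟨hy.1.2, hy.2⟩
      have h2 := hmem i j y hy.1
      have h3 := hmem i k y ⟨hy.1.1, hy.2⟩
      simp only [br, h1, h2, h3, dif_pos]
      have h4 := PresentedGroup.one_of_mem (rels := rels)
        ⟨(⟨_, h1⟩, ⟨_, h2⟩, ⟨_, h3⟩), by simp only [mem_ofPred_eq]; group, rfl⟩
      simp only [map_mul, map_inv] at h4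
      exact mul_inv_eq_one.1 h4)
    (PresentedGroup.toGroup hrel) (fun i y => e i y)
    (fun i j y hy => by simp only [br, hmem i j y hy, dif_pos, PresentedGroup.toGroup.of])
    (fun i γ hγ h => he i γ hγ fun t => hKV _ (interior_subset (h t)))
  exact fp_of_retract _ m hm

/-- The fundamental group of a finite CW complex is finitely presented. -/
theorem fp_of_cw {X : Type} [TopologicalSpace X] [T2Space X] [CWComplex (univ : Set X)]
    [RelCWComplex.Finite (univ : Set X)] [PathConnectedSpace X] (x0 : X) :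
    Group.IsFinitelyPresented (FundamentalGroup X x0) := by
  have := Klein.compact_of_cw (K := X)
  exact fp_of_lc lc_of_cw x0

end Pool.Agent.H968Z.SC
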