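import Mathlib
import Pool.Agent.H968Z.Klein.Defs
import Pool.Agent.H968Z.SC.Approx
import Pool.Agent.H968Z.SC.FP

set_option autoImplicit false

namespace Pool.Agent.H968Z.SC

open unitInterval Set Topology

/-- The circle. -/
abbrev AC : Type := AddCircle (1 : ℝ)

/-- The pullback of a map `p` along `f`. -/
abbrev Pull {X B E : Type} [TopologicalSpace X] [TopologicalSpace B] (f : C(X, B)) (p : E → B) :
    Type := {q : X × E // f q.1 = p q.2}

/-- The pullback of a covering map is a covering map. -/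
theorem isCoveringMap_pull {X B E : Type} [TopologicalSpace X] [TopologicalSpace B]
    [TopologicalSpace E] (f : C(X, B)) {p : E → B} (hp : IsCoveringMap p) :
    IsCoveringMap (fun q : Pull f p => q.1.1) := by
  intro x
  obtain ⟨hd, U, hxU, hU, hpU, H, hH⟩ := hp (f x)
  suffices h : IsEvenlyCovered (fun q : Pull f p => q.1.1) x (p ⁻¹' {f x}) from
    h.to_isEvenlyCovered_preimage
  refine ⟨hd, f ⁻¹' U, hxU, hU.preimage f.continuous,
      (hU.preimage f.continuous).preimage (by fun_prop), ?_⟩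
  have hm : ∀ q : (fun q : Pull f p => q.1.1) ⁻¹' (f ⁻¹' U), q.1.1.2 ∈ p ⁻¹' U := fun q => by
    rw [mem_preimage, ← q.1.2]; exact q.2
  have hs : ∀ y : (f ⁻¹' U) × (p ⁻¹' {f x}), f y.1.1 = p (H.symm (⟨f y.1.1, y.1.2⟩, y.2)) :=
    fun y => by rw [← hH, H.apply_symm_apply]
  refine ⟨{ toFun := fun q => (⟨q.1.1.1, q.2⟩, (H ⟨q.1.1.2, hm q⟩).2)
            invFun := fun y => ⟨⟨(y.1.1, H.symm (⟨f y.1.1, y.1.2⟩, y.2)), hs y⟩, y.1.2⟩
            left_inv := fun q => ?_
            right_inv := fun y => ?_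
            continuous_toFun := by fun_prop
            continuous_invFun := by fun_prop }, fun _ => rfl⟩
  · refine Subtype.ext (Subtype.ext (Prod.ext rfl ?_))
    have : ((⟨f q.1.1.1, q.2⟩ : U), (H ⟨q.1.1.2, hm q⟩).2) = H ⟨q.1.1.2, hm q⟩ :=
      Prod.ext (Subtype.ext (q.1.2.trans (hH ⟨_, hm q⟩).symm)) rfl
    simp only [this, H.symm_apply_apply]
  · simp only [Subtype.coe_eta, H.apply_symm_apply]

lemma cov_coe : IsCoveringMap ((↑) : ℝ → AC) := AddCircle.isCoveringMap_coe 1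

lemma cov_nsmul (k : ℕ) [NeZero k] : IsCoveringMap (fun a : AC => k • a) :=
  (AddCircle.isAddQuotientCoveringMap_nsmul_of_ne_zero (1 : ℝ) k).isCoveringMap

@[fun_prop] lemma continuous_coeAC : Continuous ((↑) : ℝ → AC) := cov_coe.continuous

lemma coe_eq_zero {x : ℝ} : (x : AC) = 0 ↔ ∃ n : ℤ, (n : ℝ) = x := by
  rw [AddCircle.coe_eq_zero_iff]; simp

lemma coe_eq_coe {x y : ℝ} : (x : AC) = y ↔ ∃ n : ℤ, (n : ℝ) = x - y := by
  rw [← sub_eq_zero, ← AddCircle.coe_sub, coe_eq_zero]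

@[simp] lemma coe_int (n : ℤ) : ((n : ℝ) : AC) = 0 := coe_eq_zero.2 ⟨n, rfl⟩

lemma exists_lift {γ : I → AC} (hγ : Continuous γ) {e : ℝ} (he : γ 0 = e) :
    ∃ l : I → ℝ, Continuous l ∧ (∀ s, (l s : AC) = γ s) ∧ l 0 = e := by
  obtain ⟨Γ, h1, h2⟩ := cov_coe.exists_path_lifts ⟨γ, hγ⟩ e he
  exact ⟨Γ, Γ.continuous, congrFun h1, h2⟩

open Classical in
/-- The total angle swept by a path in the circle. -/
noncomputable def wr (γ : I → AC) : ℝ :=
  if h : ∃ l : I → ℝ, Continuous l ∧ ∀ s, (l s : AC) = γ s then h.choose 1 - h.choose 0 else 0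

lemma wr_eq {γ : I → AC} {l : I → ℝ} (hl : Continuous l) (h : ∀ s, (l s : AC) = γ s) :
    wr γ = l 1 - l 0 := by
  have h0 : ∃ l : I → ℝ, Continuous l ∧ ∀ s, (l s : AC) = γ s := ⟨l, hl, h⟩
  unfold wr
  rw [dif_pos h0]
  obtain ⟨h1, h2⟩ := h0.choose_spec
  have := cov_coe.const_of_comp (g := fun s => h0.choose s - l s) (h1.sub hl)
    (fun a b => by simp [h, h2]) 1 0
  linarith

lemma wr_htpy {γ γ' : C(I, AC)} (h : γ.HomotopicRel γ' {0, 1}) : wr γ = wr γ' := by
  obtain ⟨e, he⟩ := QuotientAddGroup.mk_surjective (γ 0)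
  have he' : γ' 0 = e := (h.fst_eq_snd (Or.inl rfl)).symm.trans he.symm
  rw [wr_eq (cov_coe.liftPath γ e he.symm).continuous (congrFun (cov_coe.liftPath_lifts ..)),
    wr_eq (cov_coe.liftPath γ' e he').continuous (congrFun (cov_coe.liftPath_lifts ..)),
    cov_coe.liftPath_zero, cov_coe.liftPath_zero,
    cov_coe.liftPath_apply_one_eq_of_homotopicRel h]

section

variable {X : Type} [TopologicalSpace X] (f : C(X, AC))

lemma wr_path {x y : X} {γ γ' : Path x y} (h : γ.Homotopic γ') :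
    wr (fun s => f (γ s)) = wr (fun s => f (γ' s)) :=
  wr_htpy (ContinuousMap.HomotopicRel.comp_continuousMap h f)

lemma wr_trans {x y z : X} (γ : Path x y) (γ' : Path y z) :
    wr (fun s => f (γ.trans γ' s)) = wr (fun s => f (γ s)) + wr (fun s => f (γ' s)) := by
  obtain ⟨e, he⟩ := QuotientAddGroup.mk_surjective (f (γ 0))
  obtain ⟨l, hl, h1, -⟩ := exists_lift (γ := fun s => f (γ s)) (by fun_prop) he.symm
  obtain ⟨l', hl', h2, h3⟩ := exists_lift (γ := fun s => f (γ' s)) (by fun_prop) (e := l 1)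
    (by simp [h1])
  let p : Path (l 0) (l 1) := ⟨⟨l, hl⟩, rfl, rfl⟩
  let p' : Path (l 1) (l' 1) := ⟨⟨l', hl'⟩, h3, rfl⟩
  rw [wr_eq hl h1, wr_eq hl' h2, wr_eq (p.trans p').continuous, h3]
  · simp
  · intro s
    simp only [Path.trans_apply]
    split_ifs
    · exact h1 _
    · exact h2 _

lemma wr_int {x : X} (γ : Path x x) : ∃ n : ℤ, (n : ℝ) = wr (fun s => f (γ s)) := by
  obtain ⟨e, he⟩ := QuotientAddGroup.mk_surjective (f (γ 0))
  obtain ⟨l, hl, h1, -⟩ := exists_lift (γ := fun s => f (γ s)) (by fun_prop) he.symm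
  rw [wr_eq hl h1, ← coe_eq_coe, h1, h1]
  simp

/-- The winding number of a loop. -/
noncomputable def wz {x : X} (γ : Path x x) : ℤ := ⌊wr (fun s => f (γ s))⌋

lemma wz_cast {x : X} (γ : Path x x) : (wz f γ : ℝ) = wr (fun s => f (γ s)) := by
  obtain ⟨n, hn⟩ := wr_int f γ
  rw [wz, ← hn, Int.floor_intCast]

/-- The homomorphism to `ℤ` given by a map to the circle. -/
noncomputable def phi (x : X) : FundamentalGroup X x →* Multiplicative ℤ :=
  MonoidHom.mk' (fun g => Multiplicative.ofAdd (Quotient.lift (wz f)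
    (fun a b h => by unfold wz; rw [wr_path f h]) g.toPath)) (by
      intro a b
      obtain ⟨γ, rfl⟩ := Path.Homotopic.Quotient.mk_surjective a
      obtain ⟨γ', rfl⟩ := Path.Homotopic.Quotient.mk_surjective b
      show Multiplicative.ofAdd (wz f (γ'.trans γ)) =
        Multiplicative.ofAdd (wz f γ) * Multiplicative.ofAdd (wz f γ')
      rw [← ofAdd_add]
      congr 1
      have : (wz f (γ'.trans γ) : ℝ) = wz f γ + wz f γ' := by
        rw [wz_cast, wz_cast, wz_cast, wr_trans, add_comm]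
      exact_mod_cast this)

lemma phi_mk {x : X} (γ : Path x x) :
    phi f x (Path.Homotopic.Quotient.mk γ) = Multiplicative.ofAdd (wz f γ) := rfl

/-- The infinite cyclic cover. -/
abbrev Xinf : Type := Pull f ((↑) : ℝ → AC)

/-- The `k`-fold cyclic cover. -/
abbrev Xk (k : ℕ) : Type := Pull f (fun a : AC => k • a)

/-- The angle on the `k`-fold cover. -/
def ang (k : ℕ) : C(Xk f k, AC) := ⟨fun q => q.1.2, by fun_prop⟩

/-- The covering projection of the `k`-fold cover. -/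
def prk (k : ℕ) : C(Xk f k, X) := ⟨fun q => q.1.1, by fun_prop⟩

/-- The covering projection of the infinite cyclic cover. -/
def prinf : C(Xinf f, X) := ⟨fun q => q.1.1, by fun_prop⟩

variable {f}

lemma wr_prk {k : ℕ} {δ : I → Xk f k} (hδ : Continuous δ) :
    wr (fun s => f (prk f k (δ s))) = k * wr (fun s => ang f k (δ s)) := by
  obtain ⟨e, he⟩ := QuotientAddGroup.mk_surjective (ang f k (δ 0))
  obtain ⟨l, hl, h1, -⟩ := exists_lift (γ := fun s => ang f k (δ s)) (by fun_prop) he.symm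
  rw [wr_eq hl h1, wr_eq (l := fun s => k * l s) (by fun_prop)]
  · ring
  · intro s
    rw [← nsmul_eq_mul, AddCircle.coe_nsmul, h1]
    exact (δ s).2.symm

lemma lift_k {x : X} {k : ℕ} (hk : k ≠ 0) (e : Xk f k) (he : e.1.1 = x) (γ : Path x x) :
    (∃ γ' : Path e e, ∀ s, prk f k (γ' s) = γ s) ↔ (k : ℤ) ∣ wz f γ := by
  constructor
  · rintro ⟨γ', h⟩
    refine ⟨wz (ang f k) γ', ?_⟩
    have := wr_prk γ'.continuous
    simp only [h] at this
    rw [← wz_cast, ← wz_cast] at this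
    exact_mod_cast this
  · rintro ⟨n, hn⟩
    have hk' : (k : ℝ) ≠ 0 := by exact_mod_cast hk
    obtain ⟨a, ha⟩ := QuotientAddGroup.mk_surjective e.1.2
    obtain ⟨l, hl, h1, h2⟩ := exists_lift (γ := fun s => f (γ s)) (by fun_prop) (e := k * a) (by
      rw [← nsmul_eq_mul, AddCircle.coe_nsmul, ha, γ.source, ← he]; exact e.2)
    have h3 : l 1 / k = a + n := by
      have := wz_cast f γ
      rw [wr_eq hl h1, hn, h2] at this
      push_cast at this
      field_simp
      linarith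
    have h4 : ∀ s, f (γ s) = k • ((l s / k : ℝ) : AC) := fun s => by
      simp only [← AddCircle.coe_nsmul, nsmul_eq_mul, mul_div_cancel₀ _ hk', h1]
    refine ⟨⟨⟨fun s => ⟨(γ s, ((l s / k : ℝ) : AC)), h4 s⟩, by fun_prop⟩, ?_, ?_⟩, fun _ => rfl⟩
    · refine Subtype.ext (Prod.ext (γ.source.trans he.symm) ?_)
      simp only [h2, mul_div_cancel_left₀ _ hk', ha]
    · refine Subtype.ext (Prod.ext (γ.target.trans he.symm) ?_)
      simp only [h3, AddCircle.coe_add, coe_int, add_zero, ha]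

lemma lift_inf {x : X} (e : Xinf f) (he : e.1.1 = x) (γ : Path x x) :
    (∃ γ' : Path e e, ∀ s, prinf f (γ' s) = γ s) ↔ wz f γ = 0 := by
  constructor
  · rintro ⟨γ', h⟩
    have := wz_cast f γ
    rw [wr_eq (l := fun s => (γ' s).1.2) (by fun_prop) (fun s => by rw [← h]; exact (γ' s).2.symm)]
      at this
    simpa using this
  · intro hn
    obtain ⟨l, hl, h1, h2⟩ := exists_lift (γ := fun s => f (γ s)) (by fun_prop) (e := e.1.2) (by
      rw [← e.2, he, γ.source])
    have h3 : l 1 = e.1.2 := by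
      have := wz_cast f γ
      rw [wr_eq hl h1, hn, h2] at this
      push_cast at this
      linarith
    exact ⟨⟨⟨fun s => ⟨(γ s, l s), (h1 s).symm⟩, by fun_prop⟩,
      Subtype.ext (Prod.ext (γ.source.trans he.symm) h2),
      Subtype.ext (Prod.ext (γ.target.trans he.symm) h3)⟩, fun _ => rfl⟩

lemma pathConnected_inf [PathConnectedSpace X] {x : X} (hx : f x = 0)
    (hs : Function.Surjective (phi f x)) : PathConnectedSpace (Xinf f) := by
  let e : Xinf f := ⟨(x, 0), hx⟩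
  have key : ∀ q : Xinf f, Joined e q := by
    intro q
    let α := PathConnectedSpace.somePath x q.1.1
    obtain ⟨l, hl, h1, h2⟩ := exists_lift (γ := fun s => f (α s)) (by fun_prop) (e := 0)
      (by simp [hx])
    obtain ⟨n, hn⟩ : ∃ n : ℤ, (n : ℝ) = q.1.2 - l 1 := by
      rw [← coe_eq_coe, h1, α.target, q.2]
    obtain ⟨g, hg⟩ := hs (Multiplicative.ofAdd n)
    obtain ⟨γ, rfl⟩ := Path.Homotopic.Quotient.mk_surjective g
    have h3 : wz f γ = n := Multiplicative.ofAdd.injective hg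
    obtain ⟨l', hl', h4, h5⟩ := exists_lift (γ := fun s => f (γ.trans α s)) (by fun_prop) (e := 0)
      (by simp [hx])
    have h6 := wr_trans f γ α
    rw [wr_eq hl' h4, ← wz_cast, h3, wr_eq hl h1, h2, h5] at h6
    exact ⟨⟨⟨fun s => ⟨(γ.trans α s, l' s), (h4 s).symm⟩, by fun_prop⟩,
      Subtype.ext (Prod.ext (γ.trans α).source h5),
      Subtype.ext (Prod.ext (γ.trans α).target (by show l' 1 = _; linarith))⟩⟩
  exact ⟨⟨e⟩, fun a b => (key a).symm.trans (key b)⟩

lemma pathConnected_k [PathConnectedSpace X] {x : X} (hx : f x = 0)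
    (hs : Function.Surjective (phi f x)) {k : ℕ} (hk : k ≠ 0) : PathConnectedSpace (Xk f k) := by
  have := pathConnected_inf hx hs
  have hk' : (k : ℝ) ≠ 0 := by exact_mod_cast hk
  let g : Xinf f → Xk f k := fun q => ⟨(q.1.1, ((q.1.2 / k : ℝ) : AC)), by
    simp only [← AddCircle.coe_nsmul, nsmul_eq_mul, mul_div_cancel₀ _ hk', q.2]⟩
  refine Function.Surjective.pathConnectedSpace (f := g) (fun q => ?_) (by fun_prop)
  obtain ⟨a, ha⟩ := QuotientAddGroup.mk_surjective q.1.2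
  refine ⟨⟨(q.1.1, k * a), ?_⟩, Subtype.ext (Prod.ext rfl ?_)⟩
  · rw [← nsmul_eq_mul, AddCircle.coe_nsmul, ha, q.2]
  · simp only [g, mul_div_cancel_left₀ _ hk', ha]

lemma card_prk {k : ℕ} (hk : k ≠ 0) (x : X) : Nat.card (prk f k ⁻¹' {x}) = k := by
  have hk' : (k : ℝ) ≠ 0 := by exact_mod_cast hk
  have hk0 : (0 : ℝ) < k := by positivity
  obtain ⟨a, ha⟩ := QuotientAddGroup.mk_surjective (f x)
  let g : Fin k → prk f k ⁻¹' {x} := fun j => ⟨⟨(x, (((a + (j : ℕ)) / k : ℝ) : AC)), by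
    simp only [← AddCircle.coe_nsmul, nsmul_eq_mul, mul_div_cancel₀ _ hk', AddCircle.coe_add, ha]
    rw [← Int.cast_natCast, coe_int, add_zero]⟩, rfl⟩
  have hg : Function.Bijective g := by
    constructor
    · intro i j h
      obtain ⟨n, hn⟩ := coe_eq_coe.1 (congrArg (fun q => q.1.1.2) h)
      have h1 : (n : ℝ) * k = (i : ℕ) - (j : ℕ) := by rw [hn]; field_simp; ring
      have h2 : n * (k : ℤ) = (i : ℕ) - (j : ℕ) := by exact_mod_cast h1
      have hi : ((i : ℕ) : ℤ) < k := by exact_mod_cast i.2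
      have hj : ((j : ℕ) : ℤ) < k := by exact_mod_cast j.2
      have h3 : n = 0 := by
        rcases lt_trichotomy n 0 with h | h | h
        · nlinarith
        · exact h
        · nlinarith
      rw [h3] at h2
      ext; omega
    · rintro ⟨⟨⟨y, b⟩, hb⟩, rfl⟩
      obtain ⟨c, rfl⟩ := QuotientAddGroup.mk_surjective b
      obtain ⟨n, hn⟩ : ∃ n : ℤ, (n : ℝ) = k * c - a := by
        rw [← coe_eq_coe, ← nsmul_eq_mul, AddCircle.coe_nsmul, ha]
        exact hb.symm
      have hkz : (0 : ℤ) < k := by exact_mod_cast Nat.pos_of_ne_zero hk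
      have h1 := Int.emod_nonneg n hkz.ne'
      have h2 := Int.emod_lt_of_pos n hkz
      refine ⟨⟨(n % k).toNat, by omega⟩, Subtype.ext (Subtype.ext (Prod.ext rfl ?_))⟩
      refine coe_eq_coe.2 ⟨-(n / k), ?_⟩
      have h3 : (((n % k).toNat : ℕ) : ℝ) = n - k * (n / k : ℤ) := by
        have : (((n % k).toNat : ℕ) : ℤ) = n - k * (n / k) := by
          rw [Int.toNat_of_nonneg h1, Int.emod_def]
        exact_mod_cast this
      simp only [h3, hn]
      push_cast
      field_simp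
      ring
  rw [← Nat.card_congr (Equiv.ofBijective g hg)]
  simp

end

/-- `W` has the homotopy type of a CW complex of finite type. -/
def FiniteTypeH (W : Type) [TopologicalSpace W] : Prop :=
  ∃ (Y : Type) (_ : TopologicalSpace Y) (_ : T2Space Y) (_ : CWComplex (univ : Set Y)),
    RelCWComplex.FiniteType (univ : Set Y) ∧ Nonempty (ContinuousMap.HomotopyEquiv W Y)

/-- A criterion for infinite homotopy type. -/
theorem not_finite {W D : Type} [TopologicalSpace W] [MetricSpace D] [CompactSpace D] {k : ℕ}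
    (hD : dimH (univ : Set D) < k)
    (h : ∀ K : Set W, IsCompact K → ∃ (ρ : C(W, W)) (ι : C(D, W)), (∀ w ∈ K, ρ w = w) ∧
      (ρ.comp ι).Nullhomotopic ∧ ¬ ι.Nullhomotopic) :
    ¬ FiniteTypeH W ∧ ¬ Klein.FinitelyDominated W := by
  have key : ∀ {ρ : C(W, W)} {ι ι' : C(D, W)}, ι.Homotopic ι' → ρ.comp ι' = ι' →
      (ρ.comp ι).Nullhomotopic → ι.Nullhomotopic := by
    rintro ρ ι ι' h1 h2 ⟨w, h3⟩
    have h4 := (ContinuousMap.Homotopic.refl ρ).comp h1
    rw [h2] at h4
    exact ⟨w, h1.trans (h4.symm.trans h3)⟩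
  constructor
  · rintro ⟨Y, _, _, _, _, ⟨e⟩⟩
    obtain ⟨ρ, ι, h1, h2, h3⟩ := h _ ((isCompact_sk (X := Y) k).image e.invFun.continuous)
    obtain ⟨g, hg, hfg⟩ := push_skel hD (e.toFun.comp ι)
    refine h3 (key (ι' := e.invFun.comp g) ?_ (ContinuousMap.ext fun d => h1 _ ⟨_, hg d, rfl⟩) h2)
    exact (e.left_inv.comp (ContinuousMap.Homotopic.refl ι)).symm.trans
      ((ContinuousMap.Homotopic.refl e.invFun).comp hfg.homotopic)
  · rintro ⟨K, _, ⟨_, _, _⟩, i, r, hri⟩
    have := Klein.compact_of_cw (K := K)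
    obtain ⟨ρ, ι, h1, h2, h3⟩ := h _ (isCompact_range r.continuous)
    exact h3 (key (ι' := (r.comp i).comp ι) (hri.comp (ContinuousMap.Homotopic.refl ι)).symm
      (ContinuousMap.ext fun d => h1 _ ⟨_, rfl⟩) h2)

end Pool.Agent.H968Z.SC
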