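import Mathlib
import Pool.Agent.H968Z.SC.Wind

set_option autoImplicit false

namespace Pool.Agent.H968Z.SC

open unitInterval Set Topology Klein

/-- The data of a counterexample. -/
structure Good (X : Type) [TopologicalSpace X] (x₀ : X) (f : C(X, AC)) (k : ℕ)
    (h : C(X, Xk f k)) (g : C(Xk f k, X)) : Prop where
  cw : IsFiniteCW X
  conn : PathConnectedSpace X
  base : f x₀ = 0
  surj : Function.Surjective (phi f x₀)
  fp : Group.IsFinitelyPresented (phi f x₀).ker
  hk : 1 < k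
  hb : prk f k (h x₀) = x₀
  gb : g (h x₀) = x₀
  gh : (g.comp h).Homotopic (ContinuousMap.id X)
  hg : (h.comp g).HomotopicRel (ContinuousMap.id _) {h x₀}
  wind : ∀ γ : Path x₀ x₀, wr (fun s => ang f k (h (γ s))) = wr (fun s => f (γ s))
  nft : ¬ FiniteTypeH (Xinf f)
  nfd : ¬ FinitelyDominated (Xinf f)

namespace Good

variable {X : Type} [TopologicalSpace X] {x₀ : X} {f : C(X, AC)} {k : ℕ}
  {h : C(X, Xk f k)} {g : C(Xk f k, X)}

lemma exists_loop (G : Good X x₀ f k h g) (δ : Path (h x₀) (h x₀)) :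
    ∃ γ : Path x₀ x₀, (γ.map h.continuous).Homotopic δ := by
  obtain ⟨H⟩ := G.hg
  refine ⟨(δ.map g.continuous).cast G.gb.symm G.gb.symm, ⟨⟨⟨⟨fun p => H (p.1, δ p.2), by fun_prop⟩,
    fun s => H.apply_zero _, fun s => H.apply_one _⟩, ?_⟩⟩⟩
  rintro t s (rfl | rfl)
  · exact (congrArg (fun y => H (t, y)) δ.source).trans
      ((H.eq_fst t rfl).trans (congrArg (fun y => h (g y)) δ.source.symm))
  · exact (congrArg (fun y => H (t, y)) δ.target).trans
      ((H.eq_fst t rfl).trans (congrArg (fun y => h (g y)) δ.target.symm))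

lemma phi_eq_one {γ : Path x₀ x₀} :
    phi f x₀ (FundamentalGroup.fromPath (Quotient.mk _ γ)) = 1 ↔ wr (fun s => f (γ s)) = 0 := by
  rw [← wz_cast, Int.cast_eq_zero]
  exact Multiplicative.ofAdd.injective.eq_iff (a := wz f γ) (b := 0)

lemma kernel_iff (G : Good X x₀ f k h g) (δ : Path (h x₀) (h x₀)) :
    (∃ γ : Path x₀ x₀, phi f x₀ (FundamentalGroup.fromPath (Quotient.mk _ γ)) = 1 ∧
      ∀ s, prk f k (δ s) = γ s) ↔
    (∃ γ : Path x₀ x₀, phi f x₀ (FundamentalGroup.fromPath (Quotient.mk _ γ)) = 1 ∧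
      (γ.map h.continuous).Homotopic δ) := by
  have hk : (k : ℝ) ≠ 0 := by have := G.hk; positivity
  have h0 := wr_prk δ.continuous
  constructor
  · rintro ⟨γ, h1, h2⟩
    obtain ⟨γ', h3⟩ := G.exists_loop δ
    refine ⟨γ', phi_eq_one.2 ?_, h3⟩
    simp only [h2, phi_eq_one.1 h1] at h0
    rw [← G.wind]
    exact (wr_path (ang f k) h3).trans ((mul_eq_zero.1 h0.symm).resolve_left hk)
  · rintro ⟨γ, h1, h2⟩
    refine ⟨(δ.map (prk f k).continuous).cast G.hb.symm G.hb.symm, phi_eq_one.2 ?_, fun _ => rfl⟩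
    have h3 := wr_path (ang f k) h2
    rw [← h3] at h0
    exact h0.trans (mul_eq_zero_of_right _ ((G.wind γ).trans (phi_eq_one.1 h1)))

/-- The endomorphism of the fundamental group. -/
noncomputable abbrev endo (G : Good X x₀ f k h g) : Monoid.End (FundamentalGroup X x₀) :=
  FundamentalGroup.mapOfEq ((prk f k).comp h) G.hb

lemma endo_mk (G : Good X x₀ f k h g) (γ : Path x₀ x₀) :
    G.endo (Path.Homotopic.Quotient.mk γ) = Path.Homotopic.Quotient.mk
      ((γ.map ((prk f k).comp h).continuous).cast G.hb.symm G.hb.symm) :=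
  FundamentalGroup.mapOfEq_apply _ _ _

lemma phi_endo (G : Good X x₀ f k h g) (a : FundamentalGroup X x₀) :
    (phi f x₀ (G.endo a)).toAdd = k * (phi f x₀ a).toAdd := by
  obtain ⟨γ, rfl⟩ := Path.Homotopic.Quotient.mk_surjective a
  rw [endo_mk, phi_mk, phi_mk, toAdd_ofAdd, toAdd_ofAdd]
  have := wr_prk (δ := fun s => h (γ s)) (by fun_prop)
  rw [G.wind, ← wz_cast] at this
  have h2 := (wz_cast f ((γ.map ((prk f k).comp h).continuous).cast G.hb.symm G.hb.symm)).trans this
  exact_mod_cast h2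

lemma endo_surj (G : Good X x₀ f k h g) (b : FundamentalGroup X x₀)
    (hb : (k : ℤ) ∣ (phi f x₀ b).toAdd) : ∃ a, G.endo a = b := by
  obtain ⟨γ, rfl⟩ := Path.Homotopic.Quotient.mk_surjective b
  obtain ⟨δ, hδ⟩ := (lift_k (by have := G.hk; omega) (h x₀) G.hb γ).2 hb
  obtain ⟨γ', h1⟩ := G.exists_loop δ
  refine ⟨Path.Homotopic.Quotient.mk γ', ?_⟩
  rw [endo_mk, Path.Homotopic.Quotient.eq]
  have h2 := (h1.map (prk f k)).pathCast G.hb.symm G.hb.symm
  have h3 : (δ.map (prk f k).continuous).cast G.hb.symm G.hb.symm = γ := by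
    ext s
    exact hδ s
  rw [← h3]
  exact h2

lemma phi_pow (G : Good X x₀ f k h g) (j : ℕ) (a : FundamentalGroup X x₀) :
    (phi f x₀ ((G.endo ^ j : Monoid.End _) a)).toAdd = k ^ j * (phi f x₀ a).toAdd := by
  induction j with
  | zero => simp
  | succ j ih =>
    rw [pow_succ', pow_succ', mul_assoc, ← ih, ← G.phi_endo]
    rfl

lemma stable_eq (G : Good X x₀ f k h g) : stableImage G.endo = (phi f x₀).ker := by
  have hk := G.hk
  ext b
  unfold stableImage
  rw [Subgroup.mem_iInf, MonoidHom.mem_ker]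
  constructor
  · intro hb
    have hd : ∀ j : ℕ, (k : ℤ) ^ (j + 1) ∣ (phi f x₀ b).toAdd := fun j => by
      obtain ⟨a, ha⟩ := hb j
      exact ⟨_, by rw [← G.phi_pow]; exact congrArg (fun c => (phi f x₀ c).toAdd) ha.symm⟩
    set m := (phi f x₀ b).toAdd
    have h0 : m = 0 := by
      refine Int.eq_zero_of_abs_lt_dvd (hd m.natAbs) ?_
      have : m.natAbs < k ^ (m.natAbs + 1) :=
        (Nat.lt_pow_self hk).trans (Nat.pow_lt_pow_right hk (by omega))
      rw [← Int.natCast_natAbs]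
      exact_mod_cast this
    exact Multiplicative.toAdd.injective h0
  · intro hb j
    have key : ∀ j : ℕ, ∀ b, phi f x₀ b = 1 → ∃ a, phi f x₀ a = 1 ∧
        (G.endo ^ j : Monoid.End _) a = b := by
      intro j
      induction j with
      | zero => exact fun b hb => ⟨b, hb, rfl⟩
      | succ j ih =>
        intro b hb
        obtain ⟨a, ha⟩ := G.endo_surj b (by simp [hb])
        have h1 := G.phi_endo a
        rw [ha, hb, toAdd_one] at h1
        have h2 : (phi f x₀ a).toAdd = 0 :=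
          (mul_eq_zero.1 h1.symm).resolve_left (by exact_mod_cast (by omega : k ≠ 0))
        obtain ⟨c, hc, hc'⟩ := ih a (Multiplicative.toAdd.injective h2)
        exact ⟨c, hc, by rw [pow_succ', ← ha, ← hc']; rfl⟩
    obtain ⟨a, -, ha⟩ := key (j + 1) b hb
    exact ⟨a, ha⟩

lemma range_inf (e : Xinf f) (he : prinf f e = x₀) :
    (FundamentalGroup.mapOfEq (prinf f) he).range = (phi f x₀).ker := by
  have hm : ∀ δ : Path e e, FundamentalGroup.mapOfEq (prinf f) he (Path.Homotopic.Quotient.mk δ) =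
      Path.Homotopic.Quotient.mk ((δ.map (prinf f).continuous).cast he.symm he.symm) :=
    fun δ => FundamentalGroup.mapOfEq_apply _ _ _
  ext b
  rw [MonoidHom.mem_ker]
  constructor
  · rintro ⟨a, rfl⟩
    obtain ⟨δ, rfl⟩ := Path.Homotopic.Quotient.mk_surjective a
    rw [hm, phi_mk, (lift_inf e he _).1 ⟨δ, fun _ => rfl⟩]
    rfl
  · intro hb
    obtain ⟨γ, rfl⟩ := Path.Homotopic.Quotient.mk_surjective b
    obtain ⟨δ, hδ⟩ := (lift_inf e he γ).2 (Multiplicative.ofAdd.injective hb)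
    refine ⟨Path.Homotopic.Quotient.mk δ, ?_⟩
    rw [hm]
    congr 1
    ext s
    exact hδ s

/-- The negation of the finite type question for infinite cyclic covers. -/
theorem not_main (G : Good X x₀ f k h g) :
    ¬ (∀ (X : Type) [TopologicalSpace X] [T2Space X] [Topology.CWComplex (Set.univ : Set X)]
    [ConnectedSpace X] (x₀ : X) (φ : FundamentalGroup X x₀ →* Multiplicative ℤ),
    Function.Surjective φ →
    (∃ (n : ℕ) (R : Finset (FreeGroup (Fin n))),
      Nonempty (↥φ.ker ≃* PresentedGroup (R : Set (FreeGroup (Fin n))))) →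
    ∀ (k : ℕ), 1 < k →
    ∀ (Xk : Type) [TopologicalSpace Xk] [ConnectedSpace Xk] (pk : Xk → X) (h : C(X, Xk)),
      IsCoveringMap pk →
      (∀ γ : Path x₀ x₀, (∃ γ' : Path (h x₀) (h x₀), ∀ s, pk (γ' s) = γ s) ↔
          (k : ℤ) ∣ Multiplicative.toAdd (φ (FundamentalGroup.fromPath (Quotient.mk _ γ)))) →
      (∃ g : C(Xk, X), (g.comp h).Homotopic (ContinuousMap.id X) ∧
          (h.comp g).Homotopic (ContinuousMap.id Xk)) →
      (∀ δ : Path (h x₀) (h x₀),
        (∃ γ : Path x₀ x₀, φ (FundamentalGroup.fromPath (Quotient.mk _ γ)) = 1 ∧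
            ∀ s, pk (δ s) = γ s) ↔
        (∃ γ : Path x₀ x₀, φ (FundamentalGroup.fromPath (Quotient.mk _ γ)) = 1 ∧
            (γ.map h.continuous).Homotopic δ)) →
      (∃ (Y : Type) (_ : TopologicalSpace Y) (_ : T2Space Y)
          (_ : Topology.CWComplex (Set.univ : Set Y)),
        Topology.RelCWComplex.FiniteType (Set.univ : Set Y) ∧
          Nonempty (ContinuousMap.HomotopyEquiv X Y)) →
      ∀ (Xinf : Type) [TopologicalSpace Xinf] [ConnectedSpace Xinf] (pinf : Xinf → X)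
        (xinf : Xinf),
        IsCoveringMap pinf →
        (∀ γ : Path x₀ x₀, (∃ γ' : Path xinf xinf, ∀ s, pinf (γ' s) = γ s) ↔
          φ (FundamentalGroup.fromPath (Quotient.mk _ γ)) = 1) →
        ∃ (Y : Type) (_ : TopologicalSpace Y) (_ : T2Space Y)
          (_ : Topology.CWComplex (Set.univ : Set Y)),
          Topology.RelCWComplex.FiniteType (Set.univ : Set Y) ∧
            Nonempty (ContinuousMap.HomotopyEquiv Xinf Y)) := by
  intro H
  obtain ⟨_, _, hfin⟩ := G.cw
  have := G.conn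
  have hk : k ≠ 0 := by have := G.hk; omega
  have : NeZero k := ⟨hk⟩
  have := pathConnected_k G.base G.surj hk
  have := pathConnected_inf G.base G.surj
  obtain ⟨n, R, hR, e⟩ := G.fp.exists_mulEquiv_presentedGroup
  refine G.nft (H X x₀ (phi f x₀) G.surj ⟨n, hR.toFinset, by rwa [hR.coe_toFinset]⟩ k G.hk
    (Xk f k) (prk f k) h (isCoveringMap_pull f (cov_nsmul k)) (fun γ => lift_k hk _ G.hb γ)
    ⟨g, G.gh, G.hg.homotopic⟩ G.kernel_iff
    ⟨X, _, ‹_›, ‹_›, inferInstance, ⟨ContinuousMap.HomotopyEquiv.refl X⟩⟩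
    (Xinf f) (prinf f) ⟨(x₀, 0), G.base⟩ (isCoveringMap_pull f cov_coe) fun γ => ?_)
  rw [lift_inf (f := f) ⟨(x₀, 0), G.base⟩ rfl γ]
  exact (Multiplicative.ofAdd.injective.eq_iff (a := wz f γ) (b := 0)).symm

end Good

end Pool.Agent.H968Z.SC
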