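import Mathlib
import Pool.Agent.H968Z.SC.Adj
import Pool.Agent.H968Z.SC.Wind

set_option autoImplicit false

namespace Pool.Agent.H968Z.SC

open unitInterval Set Metric Topology

/-- Interior points of a cube. -/
def Inn {κ : Type} (z : κ → I) : Prop := ∀ k, z k ≠ 0 ∧ z k ≠ 1

/-- A finite decomposition into open cubes. -/
structure Cells (X : Type) [TopologicalSpace X] where
  ι : Type
  fin : Finite ι
  κ : ι → Type
  ft : ∀ i, Finite (κ i)
  chr : ∀ i, C(κ i → I, X)
  dm : X → ℕ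
  cover : ∀ x, ∃ i z, Inn z ∧ chr i z = x
  inj1 : ∀ i j z z', Inn z → Inn z' → chr i z = chr j z' → i = j
  inj2 : ∀ i z z', Inn z → Inn z' → chr i z = chr i z' → z = z'
  dm_int : ∀ i z, Inn z → dm (chr i z) = Nat.card (κ i)
  dm_bd : ∀ i z, ¬ Inn z → dm (chr i z) < Nat.card (κ i)

namespace Cells

variable {X Y : Type} [TopologicalSpace X] [TopologicalSpace Y]

lemma dm_le (C : Cells X) (i : C.ι) (z : C.κ i → I) : C.dm (C.chr i z) ≤ Nat.card (C.κ i) := by
  by_cases h : Inn z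
  · exact (C.dm_int i z h).le
  · exact (C.dm_bd i z h).le

/-- A union of open cells. -/
def Sat (C : Cells X) (S : Set X) : Prop :=
  ∀ i z z', Inn z → Inn z' → C.chr i z ∈ S → C.chr i z' ∈ S

lemma sat_dm (C : Cells X) {S : Set X} (h : ∀ x, x ∈ S ↔ C.dm x = 0) : C.Sat S := by
  intro i z z' hz hz' h1
  rw [h, C.dm_int i _ hz'] 
  rwa [h, C.dm_int i _ hz] at h1

lemma Sat.union {C : Cells X} {S T : Set X} (hS : C.Sat S) (hT : C.Sat T) : C.Sat (S ∪ T) :=
  fun i z z' hz hz' h => h.imp (hS i z z' hz hz') (hT i z z' hz hz')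

lemma sat_empty (C : Cells X) : C.Sat ∅ := fun _ _ _ _ _ h => h

lemma inn_sum {κ κ' : Type} {z : κ ⊕ κ' → I} :
    Inn z ↔ Inn (z ∘ Sum.inl) ∧ Inn (z ∘ Sum.inr) := Sum.forall

/-- The product decomposition. -/
noncomputable def prod (C : Cells X) (C' : Cells Y) : Cells (X × Y) where
  ι := C.ι × C'.ι
  fin := have := C.fin; have := C'.fin; inferInstance
  κ i := C.κ i.1 ⊕ C'.κ i.2
  ft i := have := C.ft i.1; have := C'.ft i.2; inferInstance
  chr i := ⟨fun z => (C.chr i.1 (z ∘ Sum.inl), C'.chr i.2 (z ∘ Sum.inr)), by fun_prop⟩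
  dm p := C.dm p.1 + C'.dm p.2
  cover p := by
    obtain ⟨i, z, hz, h⟩ := C.cover p.1
    obtain ⟨j, z', hz', h'⟩ := C'.cover p.2
    exact ⟨(i, j), Sum.elim z z', inn_sum.2 ⟨hz, hz'⟩, Prod.ext h h'⟩
  inj1 i j z z' hz hz' h := Prod.ext
    (C.inj1 _ _ _ _ (inn_sum.1 hz).1 (inn_sum.1 hz').1 (congrArg Prod.fst h))
    (C'.inj1 _ _ _ _ (inn_sum.1 hz).2 (inn_sum.1 hz').2 (congrArg Prod.snd h))
  inj2 i z z' hz hz' h := by
    have h1 := C.inj2 _ _ _ (inn_sum.1 hz).1 (inn_sum.1 hz').1 (congrArg Prod.fst h)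
    have h2 := C'.inj2 _ _ _ (inn_sum.1 hz).2 (inn_sum.1 hz').2 (congrArg Prod.snd h)
    funext k
    rcases k with k | k
    exacts [congrFun h1 k, congrFun h2 k]
  dm_int i z hz := by
    have := C.ft i.1; have := C'.ft i.2
    simp only [ContinuousMap.coe_mk, Nat.card_sum, C.dm_int _ _ (inn_sum.1 hz).1,
      C'.dm_int _ _ (inn_sum.1 hz).2]
  dm_bd i z hz := by
    have := C.ft i.1; have := C'.ft i.2
    simp only [ContinuousMap.coe_mk, Nat.card_sum]
    rcases not_and_or.1 (mt inn_sum.2 hz) with h | h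
    · exact Nat.add_lt_add_of_lt_of_le (C.dm_bd _ _ h) (C'.dm_le _ _)
    · exact Nat.add_lt_add_of_le_of_lt (C.dm_le _ _) (C'.dm_bd _ _ h)

@[simp] lemma prod_dm (C : Cells X) (C' : Cells Y) (p : X × Y) :
    (C.prod C').dm p = C.dm p.1 + C'.dm p.2 := rfl

lemma Sat.fst {C : Cells X} {S : Set X} (h : C.Sat S) (C' : Cells Y) :
    (C.prod C').Sat (Prod.fst ⁻¹' S) :=
  fun i _ _ hz hz' h1 => h i.1 _ _ (inn_sum.1 hz).1 (inn_sum.1 hz').1 h1

lemma Sat.snd (C : Cells X) {C' : Cells Y} {S : Set Y} (h : C'.Sat S) :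
    (C.prod C').Sat (Prod.snd ⁻¹' S) :=
  fun i _ _ hz hz' h1 => h i.2 _ _ (inn_sum.1 hz).2 (inn_sum.1 hz').2 h1

/-- A finite space. -/
def discrete (X : Type) [TopologicalSpace X] [Finite X] : Cells X where
  ι := X
  fin := inferInstance
  κ _ := Empty
  ft _ := inferInstance
  chr x := ContinuousMap.const _ x
  dm _ := 0
  cover x := ⟨x, Empty.elim, fun k => k.elim, rfl⟩
  inj1 _ _ _ _ _ _ h := h
  inj2 _ _ _ _ _ _ := Subsingleton.elim _ _
  dm_int _ _ _ := by simp
  dm_bd _ _ h := (h fun k => k.elim).elim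

@[simp] lemma discrete_dm (X : Type) [TopologicalSpace X] [Finite X] (x : X) :
    (discrete X).dm x = 0 := rfl

open Classical in
/-- The interval. -/
noncomputable def intv : Cells I where
  ι := Option Bool
  fin := inferInstance
  κ i := match i with
    | none => Unit
    | some _ => Empty
  ft i := by rcases i with _ | i <;> infer_instance
  chr i := match i with
    | none => ⟨fun z => z (), by fun_prop⟩
    | some b => ContinuousMap.const _ (if b then 1 else 0)
  dm t := if t = 0 ∨ t = 1 then 0 else 1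
  cover t := by
    by_cases h0 : t = 0
    · exact ⟨some false, Empty.elim, fun k => k.elim, h0.symm⟩
    by_cases h1 : t = 1
    · exact ⟨some true, Empty.elim, fun k => k.elim, h1.symm⟩
    · exact ⟨none, fun _ => t, fun _ => ⟨h0, h1⟩, rfl⟩
  inj1 := by
    rintro (_ | _ | _) (_ | _ | _) z z' hz hz' h
    · rfl
    · exact absurd h (hz ()).1
    · exact absurd h (hz ()).2
    · exact absurd h.symm (hz' ()).1
    · rfl
    · exact absurd h zero_ne_one
    · exact absurd h.symm (hz' ()).2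
    · exact absurd h one_ne_zero
    · rfl
  inj2 := by
    rintro (_ | _) z z' _ _ h
    · exact funext fun _ => h
    · exact funext fun k => k.elim
  dm_int := by
    rintro (_ | _ | _) z hz
    · simp [(hz ()).1, (hz ()).2]
    · simp
    · simp
  dm_bd := by
    rintro (_ | _) z hz
    · have : z () = 0 ∨ z () = 1 := by
        by_contra h
        exact hz fun _ => not_or.1 h
      simp [this]
    · exact (hz fun k => k.elim).elim

open Classical in
lemma intv_dm (t : I) : intv.dm t = if t = 0 ∨ t = 1 then 0 else 1 := rfl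

lemma sat_intv : intv.Sat {t | t = 0 ∨ t = 1} := intv.sat_dm fun t => by
  rw [intv_dm]; split_ifs with h <;> simp [h]

lemma coe_inj_of {s t : I} (hs : s ≠ 1) (ht : t ≠ 1) (h : ((s : ℝ) : AC) = (t : ℝ)) : s = t := by
  obtain ⟨n, hn⟩ := coe_eq_coe.1 h
  have h1 : (s : ℝ) < 1 := lt_of_le_of_ne s.2.2 fun e => hs (Subtype.ext e)
  have h2 : (t : ℝ) < 1 := lt_of_le_of_ne t.2.2 fun e => ht (Subtype.ext e)
  have h3 : (n : ℝ) < 1 := by linarith [t.2.1]
  have h4 : (-1 : ℝ) < n := by linarith [s.2.1]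
  have h5 : n = 0 := by
    have : n < 1 := by exact_mod_cast h3
    have : -1 < n := by exact_mod_cast h4
    omega
  exact Subtype.ext (by rw [h5] at hn; simpa [sub_eq_zero] using hn.symm)

lemma coe_fr (y : ℝ) : ((fr y : ℝ) : AC) = y := coe_eq_coe.2 ⟨-⌊y⌋, by
  show _ = Int.fract y - y
  rw [Int.fract]; push_cast; ring⟩

lemma fr_ne_one (y : ℝ) : fr y ≠ 1 := fun h => (Int.fract_lt_one y).ne (congrArg Subtype.val h)

open Classical in
/-- The circle. -/
noncomputable def circ : Cells AC where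
  ι := Bool
  fin := inferInstance
  κ i := match i with
    | true => Unit
    | false => Empty
  ft i := by rcases i with _ | i <;> infer_instance
  chr i := match i with
    | true => ⟨fun z => ((z () : ℝ) : AC), by fun_prop⟩
    | false => ContinuousMap.const _ 0
  dm t := if t = 0 then 0 else 1
  cover t := by
    by_cases h0 : t = 0
    · exact ⟨false, Empty.elim, fun k => k.elim, h0.symm⟩
    · obtain ⟨y, rfl⟩ := QuotientAddGroup.mk_surjective t
      refine ⟨true, fun _ => fr y, fun _ => ⟨fun h => h0 ?_, fr_ne_one y⟩, coe_fr y⟩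
      have h' : fr y = 0 := h
      rw [← coe_fr, h']; rfl
  inj1 := by
    rintro (_ | _) (_ | _) z z' hz hz' h
    · rfl
    · exact absurd (coe_inj_of (t := 0) (hz' ()).2 zero_ne_one h.symm) (hz' ()).1
    · exact absurd (coe_inj_of (t := 0) (hz ()).2 zero_ne_one h) (hz ()).1
    · rfl
  inj2 := by
    rintro (_ | _) z z' hz hz' h
    · exact funext fun k => k.elim
    · exact funext fun _ => coe_inj_of (hz ()).2 (hz' ()).2 h
  dm_int := by
    rintro (_ | _) z hz
    · simp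
    · have : ((z () : ℝ) : AC) ≠ 0 := fun h =>
        (hz ()).1 (coe_inj_of (t := 0) (hz ()).2 zero_ne_one h)
      simp [this]
  dm_bd := by
    rintro (_ | _) z hz
    · exact (hz fun k => k.elim).elim
    · have : z () = 0 ∨ z () = 1 := by
        by_contra h
        exact hz fun _ => not_or.1 h
      have h2 : ((z () : ℝ) : AC) = 0 := by
        rcases this with h | h <;> rw [h]
        · rfl
        · exact coe_eq_zero.2 ⟨1, by simp⟩
      simp [h2]

open Classical in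
lemma circ_dm (t : AC) : circ.dm t = if t = 0 then 0 else 1 := rfl

variable {D : Type} [TopologicalSpace D]

/-- The decomposition of an adjunction space. -/
noncomputable def adj (a : Att Y D) (CY : Cells Y) (CD : Cells D) (hS : CD.Sat a.S)
    (hf : ∀ d ∈ a.S, CY.dm (a.f d) ≤ CD.dm d) : Cells a.T where
  ι := CY.ι ⊕ {i : CD.ι // ∀ z, Inn z → CD.chr i z ∉ a.S}
  fin := have := CY.fin; have := CD.fin; inferInstance
  κ i := match i with
    | .inl i => CY.κ i
    | .inr i => CD.κ i.1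
  ft i := by
    rcases i with i | i
    exacts [CY.ft i, CD.ft i.1]
  chr i := match i with
    | .inl i => a.inl.comp (CY.chr i)
    | .inr i => a.inr.comp (CD.chr i.1)
  dm := Att.elim CY.dm CD.dm
  cover x := by
    rcases Att.cases x with ⟨y, rfl⟩ | ⟨d, hd, rfl⟩
    · obtain ⟨i, z, hz, rfl⟩ := CY.cover y
      exact ⟨.inl i, z, hz, rfl⟩
    · obtain ⟨i, z, hz, rfl⟩ := CD.cover d
      exact ⟨.inr ⟨i, fun z' hz' h => hd (hS i z' z hz' hz h)⟩, z, hz, rfl⟩
  inj1 := by
    rintro (i | i) (j | j) z z' hz hz' h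
    · exact congrArg _ (CY.inj1 _ _ _ _ hz hz' (Att.inl_inj h))
    · exact absurd h (Att.inl_ne_inr (j.2 _ hz'))
    · exact absurd h.symm (Att.inl_ne_inr (i.2 _ hz))
    · exact congrArg _ (Subtype.ext (CD.inj1 _ _ _ _ hz hz' (Att.inr_inj (i.2 _ hz) h)))
  inj2 := by
    rintro (i | i) z z' hz hz' h
    · exact CY.inj2 _ _ _ hz hz' (Att.inl_inj h)
    · exact CD.inj2 _ _ _ hz hz' (Att.inr_inj (i.2 _ hz) h)
  dm_int := by
    rintro (i | i) z hz
    · exact CY.dm_int i z hz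
    · exact (Att.elim_not _ _ (i.2 _ hz)).trans (CD.dm_int _ z hz)
  dm_bd := by
    rintro (i | i) z hz
    · exact CY.dm_bd i z hz
    · refine lt_of_le_of_lt ?_ (CD.dm_bd _ z hz)
      by_cases h : CD.chr i.1 z ∈ a.S
      · exact (congrArg (Att.elim CY.dm CD.dm) (Att.inr_eq h)).trans_le (hf _ h)
      · exact (Att.elim_not _ _ h).le

lemma adj_inl (a : Att Y D) (CY : Cells Y) (CD : Cells D) (hS : CD.Sat a.S)
    (hf : ∀ d ∈ a.S, CY.dm (a.f d) ≤ CD.dm d) (y : Y) :
    (adj a CY CD hS hf).dm (a.inl y) = CY.dm y := rfl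

lemma adj_inr (a : Att Y D) (CY : Cells Y) (CD : Cells D) (hS : CD.Sat a.S)
    (hf : ∀ d ∈ a.S, CY.dm (a.f d) ≤ CD.dm d) {d : D} (hd : d ∉ a.S) :
    (adj a CY CD hS hf).dm (a.inr d) = CD.dm d := Att.elim_not _ _ hd

lemma sat_cyl {S0 : Set D} {hS : IsClosed S0} {f0 f1 : C(D, Y)} {h : ∀ d ∈ S0, f1 d = f0 d}
    {CD : Cells D} (h0 : CD.Sat S0) : (CD.prod intv).Sat (cyl S0 hS f0 f1 h).S :=
  (h0.fst intv).union (Sat.snd CD sat_intv)

lemma cell_cyl {S0 : Set D} {hS : IsClosed S0} {f0 f1 : C(D, Y)} {h : ∀ d ∈ S0, f1 d = f0 d}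
    {CD : Cells D} {CY : Cells Y} (h0 : ∀ d, CY.dm (f0 d) ≤ CD.dm d)
    (h1 : ∀ d, CY.dm (f1 d) ≤ CD.dm d) : ∀ p ∈ (cyl S0 hS f0 f1 h).S,
      CY.dm ((cyl S0 hS f0 f1 h).f p) ≤ (CD.prod intv).dm p := by
  intro p _
  refine le_trans ?_ (Nat.le_add_right _ _)
  simp only [cyl]
  split_ifs
  exacts [h1 _, h0 _]

/-- From the closed ball to the cube. -/
noncomputable def toCube {κ : Type} {n : ℕ} (e : κ ≃ Fin n) (z : Fin n → ℝ) : κ → I :=
  fun k => cl ((z (e k) + 1) / 2)

lemma continuous_toCube {κ : Type} {n : ℕ} (e : κ ≃ Fin n) : Continuous (toCube e) := by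
  unfold toCube; fun_prop

lemma toCube_val {κ : Type} {n : ℕ} (e : κ ≃ Fin n) {z : Fin n → ℝ} (hz : ‖z‖ ≤ 1) (k : κ) :
    (toCube e z k : ℝ) = (z (e k) + 1) / 2 := by
  have := abs_le.1 ((norm_le_pi_norm z (e k)).trans hz)
  rw [toCube, cl_val, min_eq_right (by linarith), max_eq_right (by linarith)]

lemma inn_toCube {κ : Type} {n : ℕ} (e : κ ≃ Fin n) {z : Fin n → ℝ} (hz : ‖z‖ ≤ 1) :
    Inn (toCube e z) ↔ ‖z‖ < 1 := by
  rw [pi_norm_lt_iff zero_lt_one, ← e.forall_congr_right]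
  refine forall_congr' fun k => ?_
  have := abs_le.1 ((norm_le_pi_norm z (e k)).trans hz)
  rw [Ne, Ne, Subtype.ext_iff, Subtype.ext_iff, toCube_val e hz, Real.norm_eq_abs, abs_lt]
  simp only [Icc.coe_zero, Icc.coe_one]
  constructor
  · rintro ⟨h1, h2⟩
    exact ⟨lt_of_le_of_ne this.1 fun h => h1 (by linarith),
      lt_of_le_of_ne this.2 fun h => h2 (by linarith)⟩
  · rintro ⟨h1, h2⟩
    exact ⟨fun h => by linarith, fun h => by linarith⟩

lemma toCube_inj {κ : Type} {n : ℕ} (e : κ ≃ Fin n) {z z' : Fin n → ℝ} (hz : ‖z‖ ≤ 1)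
    (hz' : ‖z'‖ ≤ 1) (h : toCube e z = toCube e z') : z = z' := by
  funext j
  have := congrArg Subtype.val (congrFun h (e.symm j))
  rw [toCube_val e hz, toCube_val e hz', e.apply_symm_apply] at this
  linarith

lemma toCube_surj {κ : Type} {n : ℕ} (e : κ ≃ Fin n) (u : κ → I) :
    ∃ z, ‖z‖ ≤ 1 ∧ toCube e z = u := by
  refine ⟨fun j => 2 * u (e.symm j) - 1, (pi_norm_le_iff_of_nonneg zero_le_one).2 fun j => ?_,
    funext fun k => ?_⟩
  · rw [Real.norm_eq_abs, abs_le]
    constructor <;> linarith [(u (e.symm j)).2.1, (u (e.symm j)).2.2]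
  · simp [toCube]

/-- A finite decomposition into open cubes is a finite CW structure. -/
theorem toCW [T2Space X] (C : Cells X) : ∃ _ : CWComplex (univ : Set X),
    RelCWComplex.Finite (univ : Set X) ∧ ∀ k x, x ∈ sk X k ↔ C.dm x < k := by
  classical
  let cell : ℕ → Type := fun n => {i : C.ι // Nat.card (C.κ i) = n}
  let e : ∀ n (c : cell n), C.κ c.1 ≃ Fin n := fun n c =>
    have := C.ft c.1
    Finite.equivFinOfCardEq c.2
  let φ : ∀ n (c : cell n), (Fin n → ℝ) → X := fun n c z => C.chr c.1 (toCube (e n c) z)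
  have hφc : ∀ n c, Continuous (φ n c) := fun n c =>
    (C.chr c.1).continuous.comp (continuous_toCube _)
  have hin : ∀ n c z, z ∈ ball (0 : Fin n → ℝ) 1 → Inn (toCube (e n c) z) := fun n c z hz =>
    (inn_toCube _ (mem_ball_zero_iff.1 hz).le).2 (mem_ball_zero_iff.1 hz)
  have hdm : ∀ n c z, z ∈ ball (0 : Fin n → ℝ) 1 → C.dm (φ n c z) = n := fun n c z hz =>
    (C.dm_int _ _ (hin n c z hz)).trans c.2
  have hinj : ∀ n c z z', z ∈ closedBall (0 : Fin n → ℝ) 1 → z' ∈ ball (0 : Fin n → ℝ) 1 →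
      φ n c z = φ n c z' → z = z' := by
    intro n c z z' hz hz' h
    have hz1 := mem_closedBall_zero_iff.1 hz
    by_cases h1 : Inn (toCube (e n c) z)
    · exact toCube_inj _ hz1 (mem_ball_zero_iff.1 hz').le (C.inj2 _ _ _ h1 (hin n c z' hz') h)
    · have h2 := C.dm_bd _ _ h1
      have h3 := hdm n c z' hz'
      rw [← h] at h3
      exact absurd (h3.trans c.2.symm) h2.ne
  let cmap : ∀ n (c : cell n), PartialEquiv (Fin n → ℝ) X := fun n c =>
    InjOn.toPartialEquiv (φ n c) (ball 0 1)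
      fun z hz z' hz' h => hinj n c z z' (ball_subset_closedBall hz) hz' h
  have hcov : ∀ x, ∃ c : cell (C.dm x), x ∈ cmap _ c '' ball 0 1 := by
    intro x
    obtain ⟨i, u, hu, rfl⟩ := C.cover x
    let c : cell (C.dm (C.chr i u)) := ⟨i, (C.dm_int i u hu).symm⟩
    obtain ⟨z, hz, h⟩ := toCube_surj (e _ c) u
    exact ⟨c, z, mem_ball_zero_iff.2 ((inn_toCube _ hz).1 (h ▸ hu)), congrArg (C.chr i) h⟩
  have := C.fin
  have h1 : ∀ᶠ n in Filter.atTop, IsEmpty (cell n) := by
    obtain ⟨m, hm⟩ := (finite_range fun i => Nat.card (C.κ i)).bddAbove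
    exact Filter.eventually_atTop.2 ⟨m + 1, fun n hn => ⟨fun c => by
      have := hm ⟨c.1, c.2⟩
      omega⟩⟩
  have h2 : ∀ n, Finite (cell n) := fun n => inferInstance
  have h3 : ∀ n c, (cmap n c).source = ball 0 1 := fun _ _ => rfl
  have h4 : ∀ n c, ContinuousOn (cmap n c) (closedBall 0 1) := fun n c => (hφc n c).continuousOn
  have h5 : ∀ n c, ContinuousOn (cmap n c).symm (cmap n c).target := by
    intro n c
    rw [continuousOn_iff_isClosed]
    intro K hK
    refine ⟨cmap n c '' (closedBall 0 1 ∩ K), (((isCompact_closedBall _ _).inter_right hK).image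
      (hφc n c)).isClosed, ?_⟩
    ext y
    constructor
    · rintro ⟨h1, h2⟩
      exact ⟨⟨_, ⟨ball_subset_closedBall ((cmap n c).map_target h2), h1⟩,
        (cmap n c).right_inv h2⟩, h2⟩
    · rintro ⟨⟨z, hz, rfl⟩, h2⟩
      refine ⟨?_, h2⟩
      have := hinj n c z _ hz.1 ((cmap n c).map_target h2) ((cmap n c).right_inv h2).symm
      rw [mem_preimage, ← this]
      exact hz.2
  have h6 : (univ : Set (Σ n, cell n)).PairwiseDisjoint
      (fun ni => cmap ni.1 ni.2 '' ball 0 1) := by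
    rintro ⟨n, c⟩ - ⟨m, d⟩ - hne
    rw [Function.onFun, Set.disjoint_left]
    rintro _ ⟨z, hz, rfl⟩ ⟨z', hz', h⟩
    have h7 := C.inj1 _ _ _ _ (hin m d z' hz') (hin n c z hz) h
    obtain ⟨i, rfl⟩ := c
    obtain ⟨j, rfl⟩ := d
    obtain rfl : j = i := h7
    exact hne rfl
  have h7 : ∀ n c, MapsTo (cmap n c) (sphere 0 1)
      (⋃ (m < n) (j : cell m), cmap m j '' closedBall 0 1) := by
    intro n c z hz
    have hz1 := mem_sphere_zero_iff_norm.1 hz
    have h8 : C.dm (φ n c z) < n :=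
      (C.dm_bd _ _ fun h => ((inn_toCube _ hz1.le).1 h).ne hz1).trans_eq c.2
    obtain ⟨d, hd⟩ := hcov (φ n c z)
    simp only [mem_iUnion]
    exact ⟨_, h8, d, image_mono ball_subset_closedBall hd⟩
  have h8 : ⋃ (n : ℕ) (j : cell n), cmap n j '' closedBall 0 1 = univ := by
    refine eq_univ_of_forall fun x => ?_
    obtain ⟨d, hd⟩ := hcov x
    simp only [mem_iUnion]
    exact ⟨_, d, image_mono ball_subset_closedBall hd⟩
  refine ⟨CWComplex.mkFinite univ cell cmap h1 h2 h3 h4 h5 h6 h7 h8,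
    CWComplex.finite_mkFinite univ cell cmap h1 h2 h3 h4 h5 h6 h7 h8, fun k x => ?_⟩
  rw [@mem_sk X _ _ (CWComplex.mkFinite univ cell cmap h1 h2 h3 h4 h5 h6 h7 h8)]
  constructor
  · rintro ⟨m, hm, c, z, hz, rfl⟩
    exact (hdm m c z hz).trans_lt hm
  · intro h
    exact ⟨_, h, hcov x⟩

end Cells

end Pool.Agent.H968Z.SC
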